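import Pool.Agent.L0h44.RZ.An3
import Pool.Agent.Y883.T3.Vin

/-!
# Project RZ, part AN: the number of the solutions in primes
-/

set_option autoImplicit false

namespace Pool.Agent.L0h44.RZ

open Finset
open Pool.Agent.L0h94.RZ
open Pool.Agent.Y883.T6 (lam_bound)

open scoped ArithmeticFunction.vonMangoldt

open Classical in
/-- the solutions in large primes -/
noncomputable def SS (X : ℕ) (s : Fin 3 → ℕ) (E : Finset ℕ) (P Q R : ℕ) : Finset (ℕ × ℕ × ℕ) :=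
  ((Icc 1 P) ×ˢ (Icc 1 Q) ×ˢ (Icc 1 R)).filter (fun t => Eqn s t.1 t.2.1 t.2.2 ∧ W1 s E t.1 ∧
    W2 s E t.2.1 ∧ (t.1.Prime ∧ X < t.1 ^ 2) ∧ (t.2.1.Prime ∧ X < t.2.1 ^ 2) ∧
    (t.2.2.Prime ∧ X < t.2.2 ^ 2))

lemma lamB_bound {X M : ℕ} (hM : M ≤ X) : ∀ n ∈ Icc 1 M, |lamB X n| ≤ Real.log X := by
  intro n hn
  rw [mem_Icc] at hn
  have h := lam_bound (P := X) le_rfl n (mem_Icc.2 ⟨hn.1, hn.2.trans hM⟩)
  unfold lamB
  split_ifs
  · exact h
  · rw [abs_zero]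
    exact (abs_nonneg _).trans h

open Classical in
lemma NN_le_card (X : ℕ) (s : Fin 3 → ℕ) (E : Finset ℕ) {P Q R : ℕ} (hP : P ≤ X) (hQ : Q ≤ X)
    (hR : R ≤ X) :
    NN s E P Q R (lamB X) (lamB X) (lamB X) ≤ Real.log X ^ 3 * ((SS X s E P Q R).card : ℝ) := by
  have h1 : ((SS X s E P Q R).card : ℝ) = ∑ x ∈ Icc 1 P, ∑ y ∈ Icc 1 Q, ∑ w ∈ Icc 1 R,
      if (Eqn s x y w ∧ W1 s E x ∧ W2 s E y ∧ (x.Prime ∧ X < x ^ 2) ∧ (y.Prime ∧ X < y ^ 2) ∧
        (w.Prime ∧ X < w ^ 2)) then (1 : ℝ) else 0 := by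
    unfold SS
    rw [card_filter, sum_product]
    push_cast
    refine sum_congr rfl fun x _ => ?_
    rw [sum_product]
  rw [h1, mul_sum]
  unfold NN T3
  refine sum_le_sum fun x hx => ?_
  rw [mul_sum]
  refine sum_le_sum fun y hy => ?_
  rw [mul_sum]
  refine sum_le_sum fun w hw => ?_
  beta_reduce
  have bx := lamB_bound hP x hx
  have by' := lamB_bound hQ y hy
  have bw := lamB_bound hR w hw
  have hpos : 0 ≤ Real.log X ^ 3 * (if (Eqn s x y w ∧ W1 s E x ∧ W2 s E y ∧ (x.Prime ∧ X < x ^ 2) ∧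
      (y.Prime ∧ X < y ^ 2) ∧ (w.Prime ∧ X < w ^ 2)) then (1 : ℝ) else 0) := by
    split_ifs <;> positivity
  by_cases he : Eqn s x y w
  · have he' : (s 0 : ℤ) * (x : ℕ) + (-(s 1 : ℤ)) * (y : ℕ) + (4 * (s 2 : ℤ)) * (w : ℕ) = 0 := he
    rw [if_pos he']
    by_cases h1 : W1 s E x
    · rw [if_pos h1]
      by_cases h2 : W2 s E y
      · rw [if_pos h2]
        by_cases p1 : x.Prime ∧ X < x ^ 2
        · by_cases p2 : y.Prime ∧ X < y ^ 2
          · by_cases p3 : w.Prime ∧ X < w ^ 2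
            · rw [if_pos ⟨he, h1, h2, p1, p2, p3⟩, mul_one]
              calc lamB X x * lamB X y * lamB X w ≤ |lamB X x * lamB X y * lamB X w| := le_abs_self _
                _ = |lamB X x| * |lamB X y| * |lamB X w| := by rw [abs_mul, abs_mul]
                _ ≤ Real.log X * Real.log X * Real.log X := by gcongr
                _ = _ := by ring
            · have : lamB X w = 0 := by unfold lamB; rw [if_neg p3]
              rw [this, mul_zero]
              exact hpos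
          · have : lamB X y = 0 := by unfold lamB; rw [if_neg p2]
            rw [this, mul_zero, zero_mul]
            exact hpos
        · have : lamB X x = 0 := by unfold lamB; rw [if_neg p1]
          rw [this, zero_mul, zero_mul]
          exact hpos
      · rw [if_neg h2, mul_zero, zero_mul]
        exact hpos
    · rw [if_neg h1, zero_mul, zero_mul]
      exact hpos
  · have he' : ¬ ((s 0 : ℤ) * (x : ℕ) + (-(s 1 : ℤ)) * (y : ℕ) + (4 * (s 2 : ℤ)) * (w : ℕ) = 0) := he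
    rw [if_neg he']
    exact hpos

lemma NN_diff {X : ℕ} {s : Fin 3 → ℕ} (hs : Stc s) (E : Finset ℕ) {P Q R : ℕ} (hP1 : 1 ≤ P)
    (hQ1 : 1 ≤ Q) (hR1 : 1 ≤ R) (hP : P ≤ X) (hQ : Q ≤ X) (hR : R ≤ X) (hL0 : 0 ≤ Real.log X) :
    |NN s E P Q R Λ Λ Λ - NN s E P Q R (lamB X) (lamB X) (lamB X)| ≤
      3 * ((3 * √(X : ℝ) * Real.log X) * (Real.log X ^ 2 * (X + 1))) := by
  classical
  have hEr : 0 ≤ 3 * √(X : ℝ) * Real.log X := by positivity
  have hΛ : ∀ M, M ≤ X → ∀ n ∈ Icc 1 M, |(Λ n : ℝ)| ≤ Real.log X := by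
    intro M hM n hn
    rw [mem_Icc] at hn
    exact lam_bound (P := X) le_rfl n (mem_Icc.2 ⟨hn.1, hn.2.trans hM⟩)
  have hite : ∀ (C : ℕ → Prop) (u : ℕ → ℝ) (M : ℕ), (∀ n ∈ Icc 1 M, |u n| ≤ Real.log X) →
      ∀ n ∈ Icc 1 M, |(if C n then u n else 0)| ≤ Real.log X := by
    intro C u M hu n hn
    split_ifs
    · exact hu n hn
    · rw [abs_zero]; exact hL0
  have hsum : ∀ (C : ℕ → Prop) (M : ℕ), 1 ≤ M → M ≤ X →
      ∑ n ∈ Icc 1 M, |(if C n then Λ n - lamB X n else 0)| ≤ 3 * √(X : ℝ) * Real.log X := by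
    intro C M hM1 hM
    refine le_trans (sum_le_sum fun n _ => ?_) (lamB_sum X M hM1 hM)
    split_ifs
    · exact le_rfl
    · rw [abs_zero]; exact abs_nonneg _
  have a : NN s E P Q R Λ Λ Λ - NN s E P Q R (lamB X) Λ Λ =
      T3 s P Q R (fun n => if W1 s E n then Λ n - lamB X n else 0)
        (fun n => if W2 s E n then Λ n else 0) Λ := by
    unfold NN
    apply T3_sub
    intro x hx y hy w hw he
    split_ifs <;> ring
  have b : NN s E P Q R (lamB X) Λ Λ - NN s E P Q R (lamB X) (lamB X) Λ =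
      T3 s P Q R (fun n => if W1 s E n then lamB X n else 0)
        (fun n => if W2 s E n then Λ n - lamB X n else 0) Λ := by
    unfold NN
    apply T3_sub
    intro x hx y hy w hw he
    split_ifs <;> ring
  have c : NN s E P Q R (lamB X) (lamB X) Λ - NN s E P Q R (lamB X) (lamB X) (lamB X) =
      T3 s P Q R (fun n => if W1 s E n then lamB X n else 0)
        (fun n => if W2 s E n then lamB X n else 0) (fun n => Λ n - lamB X n) := by
    unfold NN
    apply T3_sub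
    intro x hx y hy w hw he
    split_ifs <;> ring
  have ga := (T3_triv hs hP hQ (R := R) hL0 hEr).1 (hite (W2 s E) _ Q (hΛ Q hQ)) (hΛ R hR)
    (hsum (W1 s E) P hP1 hP)
  have gb := (T3_triv hs hP hQ (R := R) hL0 hEr).2.1 (hite (W1 s E) _ P (lamB_bound hP)) (hΛ R hR)
    (hsum (W2 s E) Q hQ1 hQ)
  have gc := (T3_triv hs hP hQ (R := R) hL0 hEr).2.2 (hite (W1 s E) _ P (lamB_bound hP))
    (hite (W2 s E) _ Q (lamB_bound hQ)) (lamB_sum X R hR1 hR)
  rw [← a] at ga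
  rw [← b] at gb
  rw [← c] at gc
  have ja := abs_le.1 ga
  have jb := abs_le.1 gb
  have jc := abs_le.1 gc
  rw [abs_le]
  constructor <;> linarith [ja.1, ja.2, jb.1, jb.2, jc.1, jc.2]

/-- a large prime does not divide small numbers -/
lemma big_not_dvd {X x m : ℕ} (hX : X < x ^ 2) (hm0 : 0 < m) (hm : m ^ 2 ≤ X) : ¬ x ∣ m := by
  intro h
  have h1 := Nat.le_of_dvd hm0 h
  have h2 : x ^ 2 ≤ m ^ 2 := Nat.pow_le_pow_left h1 2
  omega

open Classical in
lemma mem_Sol (X : ℕ) (s : Fin 3 → ℕ) (E : Finset ℕ) (x y w : ℕ) : (x, y, w) ∈ Sol X s E ↔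
    ((1 ≤ x ∧ x ≤ X) ∧ (1 ≤ y ∧ y ≤ X) ∧ (1 ≤ w ∧ w ≤ X)) ∧ x.Prime ∧ y.Prime ∧ w.Prime ∧
    X < x ^ 2 ∧ X < y ^ 2 ∧ X < w ^ 2 ∧ s 1 * y ≤ X ∧ Gd (s 0 * x) (s 1 * y) (s 2 * w) ∧
    ∀ l ∈ (∏ i, s i).primeFactors, tf (s 0 * x) (s 1 * y) (s 2 * w) l = ind E l := by
  unfold Sol
  simp only [mem_filter, mem_product, mem_Icc]

lemma SS_sub {X : ℕ} {s : Fin 3 → ℕ} (hSt : St s) (hX : 16 ≤ X) (hn : (∏ i, s i) ^ 2 ≤ X)
    (E : Finset ℕ) {P Q R : ℕ} (hP : P ≤ X) (hQ : Q ≤ X) (hR : R ≤ X) (hsQ : s 1 * Q ≤ X) :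
    SS X s E P Q R ⊆ Sol X s E ∪ (Icc 1 X).image (fun x => (x, x, x)) := by
  classical
  have hs := stc hSt
  rintro ⟨x, y, w⟩ ht
  unfold SS at ht
  rw [mem_filter, mem_product, mem_product, mem_Icc, mem_Icc, mem_Icc] at ht
  simp only at ht
  obtain ⟨⟨hx, hy, hw⟩, he, h1, h2, ⟨px, bx⟩, ⟨py, by'⟩, ⟨pw, bw⟩⟩ := ht
  have hsN : ∀ i, 0 < s i ∧ s i ^ 2 ≤ X := by
    intro i
    have hi : s i ∣ ∏ i, s i := dvd_prod_of_mem s (mem_univ i)
    have hn0 : 0 < ∏ i, s i := Nat.pos_of_ne_zero hSt.1.ne_zero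
    refine ⟨Nat.pos_of_dvd_of_pos hi hn0, le_trans ?_ hn⟩
    exact Nat.pow_le_pow_left (Nat.le_of_dvd hn0 hi) 2
  have hn0 : 0 < ∏ i, s i := Nat.pos_of_ne_zero hSt.1.ne_zero
  have nd : ∀ z, X < z ^ 2 → ∀ i, ¬ z ∣ s i := fun z hz i =>
    big_not_dvd hz (hsN i).1 (hsN i).2
  have nd4 : ∀ z, X < z ^ 2 → ¬ z ∣ 4 := fun z hz => big_not_dvd hz (by norm_num) (by omega)
  have heq := he.nat
  -- two equal primes give three equal primes
  have hxy : x = y → x = w := by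
    intro h
    have d1 : x ∣ 4 * (s 2 * w) := by
      have : x ∣ s 0 * x + 4 * (s 2 * w) := by rw [heq, ← h]; exact Dvd.intro_left _ rfl
      exact (Nat.dvd_add_right (Dvd.intro_left _ rfl)).1 this
    have d2 := ((Nat.Prime.dvd_mul px).1 d1).resolve_left (nd4 x bx)
    have d3 := ((Nat.Prime.dvd_mul px).1 d2).resolve_left (nd x bx 2)
    exact (Nat.prime_dvd_prime_iff_eq px pw).1 d3
  have hxw : x = w → x = y := by
    intro h
    have d1 : x ∣ s 1 * y := by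
      rw [← heq]
      refine dvd_add (Dvd.intro_left _ rfl) ?_
      rw [← h]
      exact ⟨4 * s 2, by ring⟩
    have d2 := ((Nat.Prime.dvd_mul px).1 d1).resolve_left (nd x bx 1)
    exact (Nat.prime_dvd_prime_iff_eq px py).1 d2
  have hyw : y = w → y = x := by
    intro h
    have d1 : y ∣ s 0 * x := by
      have : y ∣ s 0 * x + 4 * (s 2 * w) := by rw [heq]; exact Dvd.intro_left _ rfl
      refine (Nat.dvd_add_left ?_).1 this
      rw [← h]
      exact ⟨4 * s 2, by ring⟩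
    have d2 := ((Nat.Prime.dvd_mul py).1 d1).resolve_left (nd y by' 0)
    exact (Nat.prime_dvd_prime_iff_eq py px).1 d2
  by_cases hall : x = y ∧ x = w
  · refine mem_union_right _ (mem_image.2 ⟨x, mem_Icc.2 ⟨hx.1, hx.2.trans hP⟩, ?_⟩)
    rw [← hall.1, ← hall.2]
  · have nxy : x ≠ y := fun h => hall ⟨h, hxy h⟩
    have nxw : x ≠ w := fun h => hall ⟨hxw h, h⟩
    have nyw : y ≠ w := fun h => hall ⟨(hyw h).symm, (hyw h).symm.trans h⟩
    refine mem_union_left _ ?_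
    rw [mem_Sol]
    refine ⟨⟨⟨hx.1, hx.2.trans hP⟩, ⟨hy.1, hy.2.trans hQ⟩, ⟨hw.1, hw.2.trans hR⟩⟩, px, py, pw,
      bx, by', bw, (Nat.mul_le_mul_left _ hy.2).trans hsQ, ⟨?_, ?_, h1.2.2, ?_⟩, ?_⟩
    · omega
    · have e1 : s 0 * x * (s 1 * y) * (s 2 * w) = (∏ i, s i) * (x * y * w) := by
        rw [hs.n3]
        ring
      rw [e1]
      have cxy : Nat.Coprime x y := (Nat.coprime_primes px py).2 nxy
      have cxw : Nat.Coprime x w := (Nat.coprime_primes px pw).2 nxw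
      have cyw : Nat.Coprime y w := (Nat.coprime_primes py pw).2 nyw
      have cn : ∀ z, z.Prime → X < z ^ 2 → Nat.Coprime (∏ i, s i) z := by
        intro z hz hzX
        rw [Nat.coprime_comm, hz.coprime_iff_not_dvd]
        exact big_not_dvd hzX hn0 hn
      have c1 : Nat.Coprime (x * y) w := Nat.Coprime.mul_left cxw cyw
      have c2 : Nat.Coprime (∏ i, s i) (x * y * w) :=
        Nat.Coprime.mul_right (Nat.Coprime.mul_right (cn x px bx) (cn y py by')) (cn w pw bw)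
      rw [Nat.squarefree_mul c2, Nat.squarefree_mul c1, Nat.squarefree_mul cxy]
      exact ⟨hSt.1, ⟨px.prime.squarefree, py.prime.squarefree⟩, pw.prime.squarefree⟩
    · have := h1.2.2
      have := h2.2
      omega
    · intro l hl
      have hlp := Nat.prime_of_mem_primeFactors hl
      have hld := Nat.dvd_of_mem_primeFactors hl
      rw [hs.n3] at hld
      unfold tf
      rcases (Nat.Prime.dvd_mul hlp).1 hld with hld' | hl2
      · rcases (Nat.Prime.dvd_mul hlp).1 hld' with hl0 | hl1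
        · have hl0' : l ∈ (s 0).primeFactors :=
            Nat.mem_primeFactors.2 ⟨hlp, hl0, (hsN 0).1.ne'⟩
          rw [if_pos (hl0.mul_right x)]
          exact (h2.1 l hl0').2
        · have hl1' : l ∈ (s 1).primeFactors :=
            Nat.mem_primeFactors.2 ⟨hlp, hl1, (hsN 1).1.ne'⟩
          have k1 := h1.1 l hl1'
          have k2 : ¬ l ∣ s 0 * x := by
            intro h
            rcases (Nat.Prime.dvd_mul hlp).1 h with h' | h'
            · exact not_dvd_of_coprime hs.c01.symm hl1' h'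
            · exact k1.1 h'
          rw [if_neg k2, if_pos (hl1.mul_right y)]
          exact ((eqv1 hs he hl1' _).2 k1).2
      · have hl2' : l ∈ (s 2).primeFactors :=
          Nat.mem_primeFactors.2 ⟨hlp, hl2, (hsN 2).1.ne'⟩
        have k1 := h1.2.1 l hl2'
        have k3 := (eqv2 hs he hl2' _).2 k1
        have k2 : ¬ l ∣ s 0 * x := by
          intro h
          rcases (Nat.Prime.dvd_mul hlp).1 h with h' | h'
          · exact not_dvd_of_coprime hs.c02.symm hl2' h'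
          · exact k1.1 h'
        have k4 : ¬ l ∣ s 1 * y := by
          intro h
          rcases (Nat.Prime.dvd_mul hlp).1 h with h' | h'
          · exact not_dvd_of_coprime hs.c12.symm hl2' h'
          · exact k3.1 h'
        rw [if_neg k2, if_neg k4]
        exact k3.2

theorem an_of (H0 : S_ANA) (H1 : S_ANB1) (H2 : S_ANB2) : S_AN := by
  classical
  intro ρ hρ
  obtain ⟨c, hc, M1, h1⟩ := lam_lower H0 H1 H2 ρ hρ
  obtain ⟨M2, h2⟩ := Pool.Agent.H373R2.T7.ev_L' 10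
  obtain ⟨M3, h3⟩ := Pool.Agent.Y883.T3.ev_log_rpow 23 (72 / c) (2 / 5) (by norm_num)
  refine ⟨c / 2, by positivity, M1 + M2 + M3 + 10000, fun X hX => ?_⟩
  obtain ⟨D, hD1, hD2⟩ := h1 X (by omega)
  refine ⟨D, hD1, fun s E hSt hprod hω hCln => ?_⟩
  have hs := stc hSt
  have hL := h2 X (by omega)
  have hbig := h3 X (by omega)
  have hX0 : (0 : ℝ) < X := by exact_mod_cast (by omega : 0 < X)
  have hX1 : (1 : ℝ) ≤ X := by exact_mod_cast (by omega : 1 ≤ X)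
  obtain ⟨L, hLd⟩ : ∃ L, L = Real.log (X : ℝ) := ⟨_, rfl⟩
  have hL0 : 0 < L := by rw [hLd]; linarith
  have hL1 : 1 ≤ L := by rw [hLd]; linarith
  obtain ⟨n, hn⟩ : ∃ n : ℕ, n = ∏ i, s i := ⟨_, rfl⟩
  have hn0 : 0 < n := by rw [hn]; exact Nat.pos_of_ne_zero hSt.1.ne_zero
  have hn0r : (0 : ℝ) < n := by exact_mod_cast hn0
  have hpr := hprod
  rw [← hn] at hpr
  -- n² ≤ X and 4 n ≤ X
  have hn4 : ((n : ℝ)) ^ 4 ≤ X := by
    calc (n : ℝ) ^ 4 ≤ ((X : ℝ) ^ (1 / 10 : ℝ)) ^ 4 := pow_le_pow_left₀ hn0r.le hpr 4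
      _ = (X : ℝ) ^ (4 / 10 : ℝ) := by
          rw [← Real.rpow_natCast, ← Real.rpow_mul hX0.le]
          norm_num
      _ ≤ (X : ℝ) ^ (1 : ℝ) := Real.rpow_le_rpow_of_exponent_le hX1 (by norm_num)
      _ = X := Real.rpow_one _
  have hn4' : n ^ 4 ≤ X := by exact_mod_cast hn4
  have hn2 : n ^ 2 ≤ X := (Nat.pow_le_pow_right hn0 (by norm_num)).trans hn4'
  have h4n : 4 * n ≤ X := by
    by_cases h : n ≤ 4
    · omega
    · push Not at h
      have : 4 * n ≤ n ^ 4 := by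
        calc 4 * n ≤ n * n := Nat.mul_le_mul_right _ h.le
          _ = n ^ 2 := by ring
          _ ≤ n ^ 4 := Nat.pow_le_pow_right hn0 (by norm_num)
      omega
  have hsle : ∀ i, s i ≤ n := by
    intro i
    rw [hn] at hn0 ⊢
    exact Nat.le_of_dvd hn0 (dvd_prod_of_mem s (mem_univ i))
  obtain ⟨P, hP2, hPa, hPb⟩ := exists_scale X (s 0) hs.p0 (by have := hsle 0; omega)
  obtain ⟨Q, hQ2, hQa, hQb⟩ := exists_scale X (s 1) hs.p1 (by have := hsle 1; omega)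
  obtain ⟨R, hR2, hRa, hRb⟩ := exists_scale X (4 * s 2) (by have := hs.p2; omega)
    (by have := hsle 2; omega)
  have hSz : Sz X s P Q R := ⟨hP2, hQ2, hR2, hPa, hPb, hQa, hQb, hRa, hRb⟩
  have hPX : P ≤ X := (Nat.le_mul_of_pos_left _ hs.p0).trans hPa
  have hQX : Q ≤ X := (Nat.le_mul_of_pos_left _ hs.p1).trans hQa
  have hRX : R ≤ X := (Nat.le_mul_of_pos_left _ (by have := hs.p2; omega)).trans hRa
  have hP1 : 1 ≤ P := by obtain ⟨k, hk⟩ := hP2; rw [hk]; exact Nat.one_le_two_pow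
  have hQ1 : 1 ≤ Q := by obtain ⟨k, hk⟩ := hQ2; rw [hk]; exact Nat.one_le_two_pow
  have hR1 : 1 ≤ R := by obtain ⟨k, hk⟩ := hR2; rw [hk]; exact Nat.one_le_two_pow
  have hlow := hD2 s E P Q R hSt hprod hω hCln hSz hPX hQX hRX
  have hdiff := NN_diff hs E hP1 hQ1 hR1 hPX hQX hRX (by rw [← hLd]; exact hL0.le)
  have hcard := NN_le_card X s E hPX hQX hRX
  have hsub := SS_sub hSt (by omega) (by rw [← hn]; exact hn2) E hPX hQX hRX hQa
  have hSSc : (SS X s E P Q R).card ≤ (Sol X s E).card + X := by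
    refine (card_le_card hsub).trans ((card_union_le _ _).trans (Nat.add_le_add_left ?_ _))
    refine card_image_le.trans ?_
    rw [Nat.card_Icc]
    omega
  have hSSr : ((SS X s E P Q R).card : ℝ) ≤ ((Sol X s E).card : ℝ) + X := by exact_mod_cast hSSc
  rw [← hn] at hlow hω ⊢
  rw [← hLd] at hdiff hcard hbig hω ⊢
  obtain ⟨ω, hωd⟩ : ∃ ω : ℕ, ω = n.primeFactors.card := ⟨_, rfl⟩
  rw [← hωd] at hlow hω ⊢
  obtain ⟨μ, hμ⟩ : ∃ μ : ℝ, μ = (1 / 2) ^ ω * ((X : ℝ) ^ 2 / (n : ℝ)) := ⟨_, rfl⟩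
  have hlow' : c * μ ≤ NN s E P Q R Λ Λ Λ := by
    rw [hμ, ← mul_assoc]
    exact hlow
  have hμlow : (X : ℝ) ^ (19 / 10 : ℝ) / L ^ 20 ≤ μ := by
    have k1 : 1 / L ^ 20 ≤ (1 / 2 : ℝ) ^ ω := by
      rw [one_div_pow]
      exact one_div_le_one_div_of_le (by positivity) hω
    have k2 : (X : ℝ) ^ (19 / 10 : ℝ) ≤ (X : ℝ) ^ 2 / n := by
      rw [le_div_iff₀ hn0r]
      calc (X : ℝ) ^ (19 / 10 : ℝ) * n ≤ (X : ℝ) ^ (19 / 10 : ℝ) * (X : ℝ) ^ (1 / 10 : ℝ) := by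
            gcongr
        _ = (X : ℝ) ^ 2 := by
            rw [← Real.rpow_add hX0, ← Real.rpow_natCast]
            norm_num
    rw [hμ, div_eq_mul_one_div, mul_comm]
    exact mul_le_mul k1 k2 (by positivity) (by positivity)
  have hLp : (0 : ℝ) < L ^ 20 := by positivity
  have hL23 : L ^ 23 = L ^ 20 * L ^ 3 := by rw [← pow_add]
  have hr1 : 3 * ((3 * √(X : ℝ) * L) * (L ^ 2 * (X + 1))) ≤ c / 4 * μ := by
    have k1 : 3 * ((3 * √(X : ℝ) * L) * (L ^ 2 * (X + 1))) ≤ 18 * ((X : ℝ) ^ (3 / 2 : ℝ)) * L ^ 3 := by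
      have e1 : (X : ℝ) ^ (3 / 2 : ℝ) = √(X : ℝ) * X := by
        rw [Real.sqrt_eq_rpow]
        nth_rewrite 3 [← Real.rpow_one (X : ℝ)]
        rw [← Real.rpow_add hX0]
        norm_num
      rw [e1]
      have e2 : (X : ℝ) + 1 ≤ 2 * X := by linarith
      have e3 : 0 ≤ √(X : ℝ) * L ^ 3 := by positivity
      calc 3 * ((3 * √(X : ℝ) * L) * (L ^ 2 * (X + 1))) = 9 * (√(X : ℝ) * L ^ 3) * (X + 1) := by ring
        _ ≤ 9 * (√(X : ℝ) * L ^ 3) * (2 * X) := by gcongr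
        _ = _ := by ring
    have k2 : 18 * ((X : ℝ) ^ (3 / 2 : ℝ)) * L ^ 3 ≤ c / 4 * ((X : ℝ) ^ (19 / 10 : ℝ) / L ^ 20) := by
      rw [← mul_div_assoc, le_div_iff₀ hLp]
      have e1 : (X : ℝ) ^ (19 / 10 : ℝ) = (X : ℝ) ^ (3 / 2 : ℝ) * (X : ℝ) ^ (2 / 5 : ℝ) := by
        rw [← Real.rpow_add hX0]
        norm_num
      rw [e1]
      calc 18 * ((X : ℝ) ^ (3 / 2 : ℝ)) * L ^ 3 * L ^ 20 =
            (c / 4) * ((X : ℝ) ^ (3 / 2 : ℝ) * (72 / c * L ^ 23)) := by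
            rw [hL23]
            field_simp
            ring
        _ ≤ _ := by gcongr
    refine k1.trans (k2.trans ?_)
    exact mul_le_mul_of_nonneg_left hμlow (by positivity)
  have hr2 : (X : ℝ) * L ^ 3 ≤ c / 4 * μ := by
    refine le_trans ?_ hr1
    have e1 : 1 ≤ √(X : ℝ) := Real.one_le_sqrt.2 hX1
    have e3 : 0 ≤ L ^ 3 := by positivity
    calc (X : ℝ) * L ^ 3 = 1 * (L ^ 3 * X) := by ring
      _ ≤ (9 * √(X : ℝ)) * (L ^ 3 * (X + 1)) := by
          apply mul_le_mul (by linarith) _ (by positivity) (by positivity)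
          gcongr
          linarith
      _ = _ := by ring
  have hj := (abs_le.1 hdiff).2
  have hmain : c / 2 * μ ≤ L ^ 3 * ((Sol X s E).card : ℝ) := by
    have e1 : L ^ 3 * ((SS X s E P Q R).card : ℝ) ≤ L ^ 3 * (((Sol X s E).card : ℝ) + X) := by
      gcongr
    nlinarith
  calc c / 2 * (1 / 2) ^ ω * ((X : ℝ) ^ 2 / ((n : ℝ) * L ^ 3)) = (c / 2 * μ) / L ^ 3 := by
        rw [hμ]
        field_simp
    _ ≤ ((Sol X s E).card : ℝ) := by
        rw [div_le_iff₀ (by positivity)]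
        linarith

end Pool.Agent.L0h44.RZ
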