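import Pool.Agent.L0h94.RZ.Defs

/-!
# Project RZ, part AN: the conditions on the solutions
-/

set_option autoImplicit false

namespace Pool.Agent.L0h44.RZ

open Finset
open Pool.Agent.L0h94.RZ

/-- the equation -/
def Eqn (s : Fin 3 → ℕ) (p q r : ℕ) : Prop :=
  (s 0 : ℤ) * (p : ℕ) + (-(s 1 : ℤ)) * (q : ℕ) + (4 * (s 2 : ℤ)) * (r : ℕ) = 0

lemma Eqn.nat {s : Fin 3 → ℕ} {p q r : ℕ} (h : Eqn s p q r) : s 0 * p + 4 * (s 2 * r) = s 1 * q := by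
  unfold Eqn at h
  have : ((s 0 * p + 4 * (s 2 * r) : ℕ) : ℤ) = ((s 1 * q : ℕ) : ℤ) := by
    push_cast
    linarith
  exact_mod_cast this

lemma nr_congr {l : ℕ} {a b : ℤ} (h : (l : ℤ) ∣ a - b) : nr l a = nr l b := by
  unfold nr
  have : jacobiSym a l = jacobiSym b l := by
    apply jacobiSym.mod_left'
    exact (Int.emod_emod_of_dvd a dvd_rfl).symm.trans (by
      rw [Int.emod_emod_of_dvd a dvd_rfl]
      exact Int.ModEq.symm ((Int.modEq_iff_dvd).2 h))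
  rw [this]

lemma nr_four {l : ℕ} (hl : Odd l) (a : ℤ) : nr l (4 * a) = nr l a := by
  unfold nr
  have h1 : jacobiSym (4 * a) l = jacobiSym a l := by
    rw [jacobiSym.mul_left]
    have h2 : jacobiSym (2 ^ 2) l = 1 := by
      apply jacobiSym.sq_one'
      have : Nat.Coprime 2 l := Nat.coprime_two_left.2 hl
      exact_mod_cast this
    rw [show (4 : ℤ) = 2 ^ 2 by norm_num, h2, one_mul]
  rw [h1]

lemma dvd_gen {l : ℕ} (hl : l.Prime) {a b x y : ℕ} (ha : ¬ l ∣ a) (hb : ¬ l ∣ b)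
    (h : (l : ℤ) ∣ (a : ℤ) * x - (b : ℤ) * y) : l ∣ x ↔ l ∣ y := by
  have hlp := Nat.prime_iff_prime_int.1 hl
  have ha' : ¬ (l : ℤ) ∣ (a : ℤ) := by rwa [Int.natCast_dvd_natCast]
  have hb' : ¬ (l : ℤ) ∣ (b : ℤ) := by rwa [Int.natCast_dvd_natCast]
  rw [← Int.natCast_dvd_natCast, ← Int.natCast_dvd_natCast (n := y)]
  constructor
  · intro hx
    have h1 : (l : ℤ) ∣ (b : ℤ) * y := by
      have := dvd_sub (hx.mul_left (a : ℤ)) h
      simpa using this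
    exact (hlp.dvd_or_dvd h1).resolve_left hb'
  · intro hy
    have h1 : (l : ℤ) ∣ (a : ℤ) * x := by
      have := dvd_add h (hy.mul_left (b : ℤ))
      simpa using this
    exact (hlp.dvd_or_dvd h1).resolve_left ha'

lemma dvd_gen' {l : ℕ} (hl : l.Prime) {a b x y : ℕ} (ha : ¬ l ∣ a) (hb : ¬ l ∣ b)
    (h : (l : ℤ) ∣ (a : ℤ) * x + (b : ℤ) * y) : l ∣ x ↔ l ∣ y := by
  have hlp := Nat.prime_iff_prime_int.1 hl
  have ha' : ¬ (l : ℤ) ∣ (a : ℤ) := by rwa [Int.natCast_dvd_natCast]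
  have hb' : ¬ (l : ℤ) ∣ (b : ℤ) := by rwa [Int.natCast_dvd_natCast]
  rw [← Int.natCast_dvd_natCast, ← Int.natCast_dvd_natCast (n := y)]
  constructor
  · intro hx
    have h1 : (l : ℤ) ∣ (b : ℤ) * y := by
      have := dvd_sub h (hx.mul_left (a : ℤ))
      simpa using this
    exact (hlp.dvd_or_dvd h1).resolve_left hb'
  · intro hy
    have h1 : (l : ℤ) ∣ (a : ℤ) * x := by
      have := dvd_sub h (hy.mul_left (b : ℤ))
      simpa using this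
    exact (hlp.dvd_or_dvd h1).resolve_left ha'

/-- the conditions on `q` in the first form -/
def CqI (s : Fin 3 → ℕ) (E : Finset ℕ) (q : ℕ) : Prop :=
  (∀ l ∈ (s 0).primeFactors, ¬ l ∣ q ∧ nr l ((s 1 * q : ℕ) : ℤ) = ind E l) ∧
  (∀ l ∈ (s 2).primeFactors, ¬ l ∣ q ∧ nr l (-((s 1 * q : ℕ) : ℤ)) = ind E l) ∧
  (s 1 * q) % 48 = 35

/-- the conditions on `r` in the first form -/
def CrI (s : Fin 3 → ℕ) (E : Finset ℕ) (r : ℕ) : Prop :=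
  (∀ l ∈ (s 1).primeFactors, ¬ l ∣ r ∧ nr l ((s 2 * r : ℕ) : ℤ) = ind E l) ∧ (s 2 * r) % 12 = 7

/-- the conditions on `r` in the second form -/
def CrII (s : Fin 3 → ℕ) (E : Finset ℕ) (r : ℕ) : Prop :=
  (∀ l ∈ (s 0).primeFactors, ¬ l ∣ r ∧ nr l ((s 2 * r : ℕ) : ℤ) = ind E l) ∧ (s 2 * r) % 12 = 7

/-- consequences of `St` -/
structure Stc (s : Fin 3 → ℕ) : Prop where
  p0 : 1 ≤ s 0
  p1 : 1 ≤ s 1
  p2 : 1 ≤ s 2
  n3 : ∏ i, s i = s 0 * s 1 * s 2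
  c01 : Nat.Coprime (s 0) (s 1)
  c02 : Nat.Coprime (s 0) (s 2)
  c12 : Nat.Coprime (s 1) (s 2)
  odd : ∀ l, l ∣ ∏ i, s i → Odd l

lemma stc {s : Fin 3 → ℕ} (h : St s) : Stc s := by
  obtain ⟨hsq, hc6⟩ := h
  have hn3 : ∏ i, s i = s 0 * s 1 * s 2 := Fin.prod_univ_three _
  have hn0 : s 0 * s 1 * s 2 ≠ 0 := by rw [← hn3]; exact hsq.ne_zero
  have h01 : s 0 * s 1 ≠ 0 := left_ne_zero_of_mul hn0
  have hsq' : Squarefree (s 0 * s 1 * s 2) := by rw [← hn3]; exact hsq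
  refine ⟨Nat.pos_of_ne_zero (left_ne_zero_of_mul h01), Nat.pos_of_ne_zero (right_ne_zero_of_mul h01),
    Nat.pos_of_ne_zero (right_ne_zero_of_mul hn0), hn3, ?_, ?_, ?_, ?_⟩
  · exact Nat.coprime_of_squarefree_mul (hsq'.squarefree_of_dvd ⟨s 2, by ring⟩)
  · exact Nat.coprime_of_squarefree_mul (hsq'.squarefree_of_dvd ⟨s 1, by ring⟩)
  · exact Nat.coprime_of_squarefree_mul (hsq'.squarefree_of_dvd ⟨s 0, by ring⟩)
  · intro l hl
    have h6 : Nat.Coprime l 6 := Nat.Coprime.coprime_dvd_left hl hc6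
    exact Nat.coprime_two_right.1 (Nat.Coprime.coprime_dvd_right (by norm_num) h6)

lemma not_dvd_of_coprime {a b l : ℕ} (h : Nat.Coprime a b) (hl : l ∈ a.primeFactors) : ¬ l ∣ b := by
  intro h1
  have hp := Nat.prime_of_mem_primeFactors hl
  have := Nat.dvd_gcd (Nat.dvd_of_mem_primeFactors hl) h1
  rw [h.gcd_eq_one] at this
  exact hp.one_lt.ne' (Nat.dvd_one.1 this)

lemma not_dvd_four {l b : ℕ} (hp : l.Prime) (ho : Odd l) (h : ¬ l ∣ b) : ¬ l ∣ 4 * b := by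
  intro h1
  rcases (Nat.Prime.dvd_mul hp).1 h1 with h2 | h2
  · have h3 : l ∣ 2 := hp.dvd_of_dvd_pow (show l ∣ 2 ^ 2 by norm_num; exact h2)
    have h4 := (Nat.prime_dvd_prime_iff_eq hp Nat.prime_two).1 h3
    rw [h4] at ho
    exact absurd ho (by decide)
  · exact h h2

section

variable {s : Fin 3 → ℕ} (hs : Stc s) (E : Finset ℕ) {p q r : ℕ} (he : Eqn s p q r)

include hs he

lemma eqv0 {l : ℕ} (hl : l ∈ (s 0).primeFactors) (x : ZMod 2) :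
    (¬ l ∣ q ∧ nr l ((s 1 * q : ℕ) : ℤ) = x) ↔ (¬ l ∣ r ∧ nr l ((s 2 * r : ℕ) : ℤ) = x) := by
  have hp := Nat.prime_of_mem_primeFactors hl
  have hd := Nat.dvd_of_mem_primeFactors hl
  have ho : Odd l := hs.odd l (by rw [hs.n3]; exact (hd.mul_right _).mul_right _)
  have h1 : ¬ l ∣ s 1 := not_dvd_of_coprime hs.c01 hl
  have h2 : ¬ l ∣ s 2 := not_dvd_of_coprime hs.c02 hl
  have h3 : (l : ℤ) ∣ ((s 1 : ℕ) : ℤ) * q - ((4 * s 2 : ℕ) : ℤ) * r := by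
    have e : ((s 1 : ℕ) : ℤ) * q - ((4 * s 2 : ℕ) : ℤ) * r = (s 0 : ℤ) * p := by
      unfold Eqn at he
      push_cast
      linarith
    rw [e]
    exact (Int.natCast_dvd_natCast.2 hd).mul_right _
  have h4 := dvd_gen hp h1 (not_dvd_four hp ho h2) h3
  have h5 : nr l ((s 1 * q : ℕ) : ℤ) = nr l ((s 2 * r : ℕ) : ℤ) := by
    rw [← nr_four ho ((s 2 * r : ℕ) : ℤ)]
    apply nr_congr
    push_cast at h3 ⊢
    have e : (s 1 : ℤ) * q - 4 * (s 2 * r) = (s 1 : ℤ) * q - 4 * s 2 * r := by ring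
    rw [e]
    exact h3
  rw [h4, h5]

lemma eqv1 {l : ℕ} (hl : l ∈ (s 1).primeFactors) (x : ZMod 2) :
    (¬ l ∣ r ∧ nr l ((s 2 * r : ℕ) : ℤ) = x) ↔ (¬ l ∣ p ∧ nr l (-((s 0 * p : ℕ) : ℤ)) = x) := by
  have hp := Nat.prime_of_mem_primeFactors hl
  have hd := Nat.dvd_of_mem_primeFactors hl
  have ho : Odd l := hs.odd l (by rw [hs.n3]; exact (hd.mul_left _).mul_right _)
  have h1 : ¬ l ∣ s 0 := not_dvd_of_coprime hs.c01.symm hl
  have h2 : ¬ l ∣ s 2 := not_dvd_of_coprime hs.c12 hl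
  have h3 : (l : ℤ) ∣ ((4 * s 2 : ℕ) : ℤ) * r + ((s 0 : ℕ) : ℤ) * p := by
    have e : ((4 * s 2 : ℕ) : ℤ) * r + ((s 0 : ℕ) : ℤ) * p = (s 1 : ℤ) * q := by
      unfold Eqn at he
      push_cast
      linarith
    rw [e]
    exact (Int.natCast_dvd_natCast.2 hd).mul_right _
  have h4 := dvd_gen' hp (not_dvd_four hp ho h2) h1 h3
  have h5 : nr l ((s 2 * r : ℕ) : ℤ) = nr l (-((s 0 * p : ℕ) : ℤ)) := by
    rw [← nr_four ho ((s 2 * r : ℕ) : ℤ)]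
    apply nr_congr
    push_cast at h3 ⊢
    have e : 4 * ((s 2 : ℤ) * r) - -((s 0 : ℤ) * p) = 4 * s 2 * r + s 0 * p := by ring
    rw [e]
    exact h3
  rw [h4, h5]

lemma eqv2 {l : ℕ} (hl : l ∈ (s 2).primeFactors) (x : ZMod 2) :
    (¬ l ∣ q ∧ nr l (-((s 1 * q : ℕ) : ℤ)) = x) ↔ (¬ l ∣ p ∧ nr l (-((s 0 * p : ℕ) : ℤ)) = x) := by
  have hp := Nat.prime_of_mem_primeFactors hl
  have hd := Nat.dvd_of_mem_primeFactors hl
  have h1 : ¬ l ∣ s 0 := not_dvd_of_coprime hs.c02.symm hl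
  have h2 : ¬ l ∣ s 1 := not_dvd_of_coprime hs.c12.symm hl
  have h3 : (l : ℤ) ∣ ((s 1 : ℕ) : ℤ) * q - ((s 0 : ℕ) : ℤ) * p := by
    have e : ((s 1 : ℕ) : ℤ) * q - ((s 0 : ℕ) : ℤ) * p = (s 2 : ℤ) * (4 * r) := by
      unfold Eqn at he
      linarith
    rw [e]
    exact (Int.natCast_dvd_natCast.2 hd).mul_right _
  have h4 := dvd_gen hp h2 h1 h3
  have h5 : nr l (-((s 1 * q : ℕ) : ℤ)) = nr l (-((s 0 * p : ℕ) : ℤ)) := by
    apply nr_congr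
    push_cast at h3 ⊢
    have e : -((s 1 : ℤ) * q) - -((s 0 : ℤ) * p) = -(s 1 * q - s 0 * p) := by ring
    rw [e]
    exact (dvd_neg).2 h3
  rw [h4, h5]

lemma formI : (CqI s E q ∧ CrI s E r) ↔ (W1 s E p ∧ W2 s E q) := by
  have hn := he.nat
  unfold CqI CrI W1 W2
  constructor
  · rintro ⟨⟨h1, h2, h3⟩, h4, h5⟩
    exact ⟨⟨fun l hl => (eqv1 hs he hl _).1 (h4 l hl), fun l hl => (eqv2 hs he hl _).1 (h2 l hl),
      by omega⟩, h1, h3⟩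
  · rintro ⟨⟨h1, h2, h3⟩, h4, h5⟩
    exact ⟨⟨h4, fun l hl => (eqv2 hs he hl _).2 (h2 l hl), h5⟩,
      fun l hl => (eqv1 hs he hl _).2 (h1 l hl), by omega⟩

lemma formII : (W1 s E p ∧ CrII s E r) ↔ (W1 s E p ∧ W2 s E q) := by
  have hn := he.nat
  unfold CrII W1 W2
  constructor
  · rintro ⟨⟨h1, h2, h3⟩, h4, h5⟩
    exact ⟨⟨h1, h2, h3⟩, fun l hl => (eqv0 hs he hl _).2 (h4 l hl), by omega⟩
  · rintro ⟨⟨h1, h2, h3⟩, h4, h5⟩
    exact ⟨⟨h1, h2, h3⟩, fun l hl => (eqv0 hs he hl _).1 (h4 l hl), by omega⟩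

end

end Pool.Agent.L0h44.RZ
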