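import Pool.Agent.L0h44.RZ.An1
import Pool.Agent.Y883.T6.Solve6
import Pool.Agent.L0h44.AS.Mert
import Pool.Agent.H373R2.T7.LamZ2

/-!
# Project RZ, part AN: the lower bound for the model and for the von Mangoldt function
-/

set_option autoImplicit false

namespace Pool.Agent.L0h44.RZ

open Finset
open Pool.Agent.L0h94.RZ
open Pool.Agent.H373R2.T7 (pz Vz mem_pz Vz_pos)

lemma T3_sub (s : Fin 3 → ℕ) (P Q R : ℕ) (f1 g1 h1 f2 g2 h2 f3 g3 h3 : ℕ → ℝ)
    (H : ∀ x ∈ Icc 1 P, ∀ y ∈ Icc 1 Q, ∀ z ∈ Icc 1 R, Eqn s x y z →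
      f1 x * g1 y * h1 z - f2 x * g2 y * h2 z = f3 x * g3 y * h3 z) :
    T3 s P Q R f1 g1 h1 - T3 s P Q R f2 g2 h2 = T3 s P Q R f3 g3 h3 := by
  unfold T3
  rw [← sum_sub_distrib]
  refine sum_congr rfl fun x hx => ?_
  rw [← sum_sub_distrib]
  refine sum_congr rfl fun y hy => ?_
  rw [← sum_sub_distrib]
  refine sum_congr rfl fun z hz => ?_
  by_cases h : Eqn s x y z
  · have h' : (s 0 : ℤ) * (x : ℕ) + (-(s 1 : ℤ)) * (y : ℕ) + (4 * (s 2 : ℤ)) * (z : ℕ) = 0 := h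
    rw [if_pos h', if_pos h', if_pos h', H x hx y hy z hz h]
  · have h' : ¬ ((s 0 : ℤ) * (x : ℕ) + (-(s 1 : ℤ)) * (y : ℕ) + (4 * (s 2 : ℤ)) * (z : ℕ) = 0) := h
    rw [if_neg h', if_neg h', if_neg h', sub_zero]

lemma lmz_eq (z n : ℕ) : lmz z n = if ∀ p ∈ pz z, ¬ p ∣ n then (Vz z)⁻¹ else 0 := rfl

lemma lmz_nonneg (z n : ℕ) : 0 ≤ lmz z n := by
  have h := Vz_pos z
  rw [lmz_eq]
  split_ifs
  · positivity
  · exact le_rfl

lemma lmz_le (z n : ℕ) : lmz z n ≤ (Vz z)⁻¹ := by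
  have h := Vz_pos z
  rw [lmz_eq]
  split_ifs
  · exact le_rfl
  · positivity

/-- the products over the primes up to powers of `log X` are comparable -/
lemma Vz_facts (B : ℕ) (hB : 2 ≤ B) : ∃ κ : ℝ, 0 < κ ∧ ∃ X0 : ℕ, ∀ X : ℕ, X0 ≤ X → ∀ z z' : ℕ,
    Real.log X ^ (B - 1) ≤ (z : ℝ) → (z : ℝ) ≤ Real.log X ^ (B + 1) →
    Real.log X ^ (B - 1) ≤ (z' : ℝ) → (z' : ℝ) ≤ Real.log X ^ (B + 1) →
    κ * (Vz z')⁻¹ ≤ (Vz z)⁻¹ ∧ (Vz z)⁻¹ ≤ Real.log X := by
  obtain ⟨c, C, hc, hC, hV⟩ := Pool.Agent.L0h44.AS.Vz_bounds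
  obtain ⟨M1, hM1⟩ := Pool.Agent.H373R2.T7.Vz_inv_small (B + 1)
  obtain ⟨M2, hM2⟩ := Pool.Agent.H373R2.T7.ev_L' 10
  refine ⟨c / (3 * C), by positivity, M1 + M2 + 2, fun X hX z z' h1 h2 h3 h4 => ?_⟩
  have hL := hM2 X (by omega)
  obtain ⟨L, hLd⟩ : ∃ L, L = Real.log (X : ℝ) := ⟨_, rfl⟩
  have hM := hM1 X (by omega)
  rw [← hLd] at hL h1 h2 h3 h4 hM ⊢
  have hL0 : 0 < L := by linarith
  have hL1 : 1 ≤ L := by linarith
  have hlow : ∀ w : ℕ, L ^ (B - 1) ≤ (w : ℝ) → 2 ≤ w := by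
    intro w hw
    have : (10 : ℝ) ≤ w := by
      calc (10 : ℝ) ≤ L := hL
        _ = L ^ 1 := (pow_one L).symm
        _ ≤ L ^ (B - 1) := pow_le_pow_right₀ hL1 (by omega)
        _ ≤ w := hw
    have h10 : (10 : ℕ) ≤ w := by exact_mod_cast this
    omega
  have hz2 := hlow z h1
  have hz2' := hlow z' h3
  refine ⟨?_, hM z (by omega) h2⟩
  have hll : 0 < Real.log L := Real.log_pos (by linarith)
  have hB1 : ((B - 1 : ℕ) : ℝ) = (B : ℝ) - 1 := by rw [Nat.cast_sub (by omega)]; simp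
  have hlz : ((B : ℝ) - 1) * Real.log L ≤ Real.log z := by
    have e := Real.log_le_log (by positivity) h1
    rw [Real.log_pow, hB1] at e
    exact e
  have hlz' : Real.log z' ≤ ((B : ℝ) + 1) * Real.log L := by
    have e := Real.log_le_log (by exact_mod_cast (by omega : 0 < z')) h4
    rw [Real.log_pow] at e
    push_cast at e
    exact e
  have hBr : (2 : ℝ) ≤ B := by exact_mod_cast hB
  have hlz0 : 0 < Real.log z := by nlinarith
  have hlz0' : 0 < Real.log z' := Real.log_pos (by exact_mod_cast (by omega : 1 < z'))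
  have g1 : Real.log z / C ≤ (Vz z)⁻¹ := by
    rw [le_inv_comm₀ (by positivity) (Vz_pos z), inv_div]
    exact (hV z hz2).2
  have g2 : (Vz z')⁻¹ ≤ Real.log z' / c := by
    rw [inv_le_comm₀ (Vz_pos z') (by positivity), inv_div]
    exact (hV z' hz2').1
  calc c / (3 * C) * (Vz z')⁻¹ ≤ c / (3 * C) * (Real.log z' / c) := by gcongr
    _ = Real.log z' / (3 * C) := by field_simp
    _ ≤ (3 * Real.log z) / (3 * C) := by
        gcongr
        nlinarith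
    _ = Real.log z / C := by field_simp
    _ ≤ (Vz z)⁻¹ := g1

open Classical in
/-- the sum with the conditions -/
noncomputable def NN (s : Fin 3 → ℕ) (E : Finset ℕ) (P Q R : ℕ) (f g h : ℕ → ℝ) : ℝ :=
  T3 s P Q R (fun p => if W1 s E p then f p else 0) (fun q => if W2 s E q then g q else 0) h

lemma card_pf {s : Fin 3 → ℕ} (hs : Stc s) :
    (∏ i, s i).primeFactors.card = (s 0).primeFactors.card + (s 1 * s 2).primeFactors.card := by
  have hc : Nat.Coprime (s 0) (s 1 * s 2) := Nat.Coprime.mul_right hs.c01 hs.c02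
  rw [hs.n3, mul_assoc, hc.primeFactors_mul, card_union_of_disjoint hc.disjoint_primeFactors]

/-- the lower bound for the model -/
theorem model_lower (H1 : S_ANB1) (H2 : S_ANB2) (B : ℕ) (hB : 2 ≤ B) : ∃ c : ℝ, 0 < c ∧ ∃ X0 : ℕ,
    ∀ X : ℕ, X0 ≤ X → ∀ (s : Fin 3 → ℕ) (P Q R : ℕ) (z : Fin 3 → ℕ) (E : Finset ℕ), St s →
    ((∏ i, s i : ℕ) : ℝ) ≤ (X : ℝ) ^ (1 / 10 : ℝ) → Sz X s P Q R →
    (2 : ℝ) ^ (∏ i, s i).primeFactors.card ≤ Real.log X ^ 20 →
    (∀ i, Real.log X ^ (B - 1) ≤ (z i : ℝ) ∧ (z i : ℝ) ≤ Real.log X ^ (B + 1)) →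
    c * (1 / 2) ^ (∏ i, s i).primeFactors.card * ((X : ℝ) ^ 2 / ((∏ i, s i : ℕ) : ℝ)) ≤
      NN s E P Q R (lmz (z 0)) (lmz (z 1)) (lmz (z 2)) := by
  classical
  obtain ⟨c1, hc1, M1, h1⟩ := H1 B hB
  obtain ⟨c2, hc2, M2, h2⟩ := H2 B hB
  obtain ⟨κ, hκ, M3, h3⟩ := Vz_facts B hB
  refine ⟨κ ^ 3 * c1 * c2, by positivity, M1 + M2 + M3 + 1, ?_⟩
  intro X hX s P Q R z E hSt hprod hSz hω hz
  have hs := stc hSt
  obtain ⟨Z, hZ⟩ : ∃ Z : ℕ, Z = max (z 0) (max (z 1) (z 2)) := ⟨_, rfl⟩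
  have hZi : ∀ i, z i ≤ Z := by
    intro i
    fin_cases i
    · rw [hZ]; exact le_max_left _ _
    · rw [hZ]; exact (le_max_left _ _).trans (le_max_right _ _)
    · rw [hZ]; exact (le_max_right _ _).trans (le_max_right _ _)
  have hZe : ∃ i, Z = z i := by
    rcases max_choice (z 1) (z 2) with h | h
    · rcases max_choice (z 0) (max (z 1) (z 2)) with h' | h'
      · exact ⟨0, by rw [hZ, h']⟩
      · exact ⟨1, by rw [hZ, h', h]⟩
    · rcases max_choice (z 0) (max (z 1) (z 2)) with h' | h'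
      · exact ⟨0, by rw [hZ, h']⟩
      · exact ⟨2, by rw [hZ, h', h]⟩
  obtain ⟨hZ1, hZ2⟩ : Real.log X ^ (B - 1) ≤ (Z : ℝ) ∧ (Z : ℝ) ≤ Real.log X ^ (B + 1) := by
    obtain ⟨i, hi⟩ := hZe
    rw [hi]
    exact hz i
  have hcmp : ∀ i n, κ * lmz Z n ≤ lmz (z i) n := by
    intro i n
    rw [lmz_eq, lmz_eq]
    by_cases hn : ∀ p ∈ pz Z, ¬ p ∣ n
    · rw [if_pos hn, if_pos (fun p hp => hn p (by
        rw [mem_pz] at hp ⊢
        exact ⟨hp.1.trans (hZi i), hp.2⟩))]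
      exact (h3 X (by omega) (z i) Z (hz i).1 (hz i).2 hZ1 hZ2).1
    · rw [if_neg hn, mul_zero]
      have := lmz_nonneg (z i) n
      rw [lmz_eq] at this
      exact this
  obtain ⟨I, hI⟩ : ∃ I : ℝ, I = c1 * (1 / 2) ^ (s 0).primeFactors.card *
      (X / ((s 1 * s 2 : ℕ) : ℝ)) := ⟨_, rfl⟩
  have hI0 : 0 ≤ I := by rw [hI]; positivity
  have hB2 := h2 X (by omega) s P Q R Z E hSt hprod hSz hω hZ1 hZ2
  -- the terms
  have hnn : ∀ x y w : ℕ, 0 ≤ (if (s 0 : ℤ) * (x : ℕ) + (-(s 1 : ℤ)) * (y : ℕ) +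
      (4 * (s 2 : ℤ)) * (w : ℕ) = 0 then
      (if W1 s E x then lmz (z 0) x else 0) * (if W2 s E y then lmz (z 1) y else 0) *
        lmz (z 2) w else 0) := by
    intro x y w
    have a1 := lmz_nonneg (z 0) x
    have a2 := lmz_nonneg (z 1) y
    have a3 := lmz_nonneg (z 2) w
    split_ifs <;> positivity
  have hstep : ∑ x ∈ (Icc 1 (P / 4)).filter (fun p => W1 s E p), κ ^ 3 * (lmz Z x * I) ≤
      NN s E P Q R (lmz (z 0)) (lmz (z 1)) (lmz (z 2)) := by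
    unfold NN T3
    have hsub : (Icc 1 (P / 4)).filter (fun p => W1 s E p) ⊆ Icc 1 P := by
      intro x hx
      rw [mem_filter, mem_Icc] at hx
      rw [mem_Icc]
      omega
    refine le_trans ?_ (sum_le_sum_of_subset_of_nonneg hsub fun x _ _ =>
      sum_nonneg fun y _ => sum_nonneg fun w _ => hnn x y w)
    refine sum_le_sum fun x hx => ?_
    rw [mem_filter, mem_Icc] at hx
    have hinner : lmz Z x * I ≤ lmz Z x * ∑ q ∈ Icc 1 Q, ∑ r ∈ Icc 1 R,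
        if (s 0 : ℤ) * (x : ℕ) + (-(s 1 : ℤ)) * (q : ℕ) + (4 * (s 2 : ℤ)) * (r : ℕ) = 0 then
          (if W2 s E q then lmz Z q else 0) * lmz Z r else 0 := by
      by_cases hr : ∀ p ∈ pz Z, ¬ p ∣ x
      · refine mul_le_mul_of_nonneg_left ?_ (lmz_nonneg _ _)
        rw [hI]
        exact h1 X (by omega) s P Q R Z E hSt hprod hSz hω hZ1 hZ2 x hx.1.1 (by omega) hx.2
          (fun l hl hlz => hr l (mem_pz.2 ⟨hlz, hl⟩))
      · rw [lmz_eq, if_neg hr, zero_mul, zero_mul]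
    refine (mul_le_mul_of_nonneg_left hinner (by positivity)).trans ?_
    rw [← mul_assoc, mul_sum]
    refine sum_le_sum fun y _ => ?_
    rw [mul_sum]
    refine sum_le_sum fun w _ => ?_
    by_cases he : (s 0 : ℤ) * (x : ℕ) + (-(s 1 : ℤ)) * (y : ℕ) + (4 * (s 2 : ℤ)) * (w : ℕ) = 0
    · rw [if_pos he, if_pos he]
      beta_reduce
      rw [if_pos hx.2]
      have a1 := hcmp 0 x
      have a3 := hcmp 2 w
      have b1 := lmz_nonneg Z x
      have b3 := lmz_nonneg Z w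
      have a2 : κ * (if W2 s E y then lmz Z y else 0) ≤ (if W2 s E y then lmz (z 1) y else 0) := by
        split_ifs
        · exact hcmp 1 y
        · rw [mul_zero]
      have b2 : 0 ≤ (if W2 s E y then lmz Z y else 0) := by
        split_ifs
        · exact lmz_nonneg _ _
        · exact le_rfl
      calc κ ^ 3 * lmz Z x * ((if W2 s E y then lmz Z y else 0) * lmz Z w) =
            (κ * lmz Z x) * (κ * (if W2 s E y then lmz Z y else 0)) * (κ * lmz Z w) := by ring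
        _ ≤ _ := by
            have c1' : 0 ≤ κ * lmz Z x := by positivity
            have c2' : 0 ≤ κ * (if W2 s E y then lmz Z y else 0) := mul_nonneg hκ.le b2
            exact mul_le_mul (mul_le_mul a1 a2 c2' (lmz_nonneg _ _)) a3 (by positivity)
              (mul_nonneg (lmz_nonneg _ _) (c2'.trans a2))
    · rw [if_neg he, if_neg he, mul_zero]
  refine le_trans ?_ hstep
  have e1 : ∑ x ∈ (Icc 1 (P / 4)).filter (fun p => W1 s E p), κ ^ 3 * (lmz Z x * I) =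
      κ ^ 3 * I * ∑ x ∈ (Icc 1 (P / 4)).filter (fun p => W1 s E p), lmz Z x := by
    rw [mul_sum]
    exact sum_congr rfl fun x _ => by ring
  rw [e1]
  have hs0 : (0 : ℝ) < s 0 := by exact_mod_cast hs.p0
  have hs1 : (0 : ℝ) < s 1 := by exact_mod_cast hs.p1
  have hs2 : (0 : ℝ) < s 2 := by exact_mod_cast hs.p2
  calc κ ^ 3 * c1 * c2 * (1 / 2) ^ (∏ i, s i).primeFactors.card *
        ((X : ℝ) ^ 2 / ((∏ i, s i : ℕ) : ℝ)) =
        κ ^ 3 * I * (c2 * (1 / 2) ^ (s 1 * s 2).primeFactors.card * (X / ((s 0 : ℕ) : ℝ))) := by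
        rw [card_pf hs, pow_add, hI, hs.n3]
        push_cast
        field_simp
    _ ≤ _ := mul_le_mul_of_nonneg_left hB2 (by positivity)

end Pool.Agent.L0h44.RZ
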