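import Pool.Agent.L0h44.RZ.An2

/-!
# Project RZ, part AN: the lower bounds for the von Mangoldt function and for the primes
-/

set_option autoImplicit false

namespace Pool.Agent.L0h44.RZ

open Finset
open Pool.Agent.L0h94.RZ
open Pool.Agent.H373R2.T7 (pz Vz mem_pz Vz_pos)
open Pool.Agent.Y883.T6 (S3 S3_swap S3_rot triv lamQ lamQ_sum lam_bound)

open scoped ArithmeticFunction.vonMangoldt

lemma exists_scale (X a : ℕ) (ha : 1 ≤ a) (haX : a ≤ X) :
    ∃ P : ℕ, (∃ k : ℕ, P = 2 ^ k) ∧ a * P ≤ X ∧ X < 2 * (a * P) := by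
  have h1 : 1 ≤ X / a := (Nat.one_le_div_iff ha).2 haX
  refine ⟨2 ^ Nat.log 2 (X / a), ⟨_, rfl⟩, ?_, ?_⟩
  · have h2 : 2 ^ Nat.log 2 (X / a) ≤ X / a := Nat.pow_log_le_self 2 (by omega)
    calc a * 2 ^ Nat.log 2 (X / a) ≤ a * (X / a) := Nat.mul_le_mul_left _ h2
      _ ≤ X := Nat.mul_div_le _ _
  · have h2 : X / a < 2 ^ (Nat.log 2 (X / a)).succ := Nat.lt_pow_succ_log_self (by norm_num) _
    have h3 : X < a * 2 ^ (Nat.log 2 (X / a)).succ := by
      rw [mul_comm]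
      exact (Nat.div_lt_iff_lt_mul ha).1 h2
    calc X < a * 2 ^ (Nat.log 2 (X / a)).succ := h3
      _ = 2 * (a * 2 ^ Nat.log 2 (X / a)) := by rw [pow_succ]; ring

open Classical in
/-- the lower bound for the von Mangoldt function -/
theorem lam_lower (H0 : S_ANA) (H1 : S_ANB1) (H2 : S_ANB2) : ∀ ρ : ℝ, 0 < ρ → ∃ c : ℝ, 0 < c ∧
    ∃ X0 : ℕ, ∀ X : ℕ, X0 ≤ X → ∃ D : Finset ℕ, Sp 20 ρ X D ∧ ∀ (s : Fin 3 → ℕ) (E : Finset ℕ)
      (P Q R : ℕ), St s → ((∏ i, s i : ℕ) : ℝ) ≤ (X : ℝ) ^ (1 / 10 : ℝ) →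
    (2 : ℝ) ^ (∏ i, s i).primeFactors.card ≤ Real.log X ^ 20 → Cln D (∏ i, s i) →
    Sz X s P Q R → P ≤ X → Q ≤ X → R ≤ X →
    c * (1 / 2) ^ (∏ i, s i).primeFactors.card * ((X : ℝ) ^ 2 / ((∏ i, s i : ℕ) : ℝ)) ≤
      NN s E P Q R Λ Λ Λ := by
  intro ρ hρ
  obtain ⟨B, M0, hB, h0⟩ := H0 ρ 40 hρ
  obtain ⟨c, hc, M1, h1⟩ := model_lower H1 H2 B hB
  obtain ⟨κ, hκ, M3, h3⟩ := Vz_facts B hB
  obtain ⟨M4, h4⟩ := Pool.Agent.H373R2.T7.ev_L' (6 / c + 10)
  refine ⟨c / 2, by positivity, M0 + M1 + M3 + M4 + 2, fun X hX => ?_⟩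
  obtain ⟨D, hD1, hD2⟩ := h0 X (by omega)
  refine ⟨D, hD1, ?_⟩
  intro s E P Q R hSt hprod hω hCln hSz hPX hQX hRX
  have hs := stc hSt
  obtain ⟨z, hz, herr⟩ := hD2 s P Q R hSt hprod hCln hSz
  have hmod := h1 X (by omega) s P Q R z E hSt hprod hSz hω hz
  have hL := h4 X (by omega)
  have hX0 : (0 : ℝ) < X := by exact_mod_cast (by omega : 0 < X)
  have hVz : ∀ i, (Vz (z i))⁻¹ ≤ Real.log X := fun i =>
    (h3 X (by omega) (z i) (z i) (hz i).1 (hz i).2 (hz i).1 (hz i).2).2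
  obtain ⟨L, hLd⟩ : ∃ L, L = Real.log (X : ℝ) := ⟨_, rfl⟩
  rw [← hLd] at hL hω hVz herr
  have hc6 : 0 < 6 / c := by positivity
  have hL0 : 0 < L := by linarith
  have hL1 : 1 ≤ L := by linarith
  have hL6 : 6 / c ≤ L := by linarith
  have hlog : ∀ n : ℕ, n ≤ X → |(Λ n : ℝ)| ≤ L := by
    intro n hn
    rcases Nat.eq_zero_or_pos n with h | h
    · rw [h, ArithmeticFunction.map_zero, abs_zero]; exact hL0.le
    · rw [hLd]
      exact lam_bound (P := X) le_rfl n (mem_Icc.2 ⟨h, hn⟩)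
  have hbd : ∀ (C : ℕ → Prop) (n : ℕ), |(if n ≤ X ∧ C n then (Λ n : ℝ) else 0)| ≤ L := by
    intro C n
    split_ifs with h
    · exact hlog n h.1
    · rw [abs_zero]; exact hL0.le
  have hbm : ∀ (C : ℕ → Prop) (i : Fin 3) (n : ℕ), |(if C n then lmz (z i) n else 0)| ≤ L := by
    intro C i n
    split_ifs with h
    · rw [abs_of_nonneg (lmz_nonneg _ _)]
      exact (lmz_le _ _).trans (hVz i)
    · rw [abs_zero]; exact hL0.le
  obtain ⟨n, hn⟩ : ∃ n : ℕ, n = ∏ i, s i := ⟨_, rfl⟩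
  rw [← hn] at hmod herr hω ⊢
  -- first step
  have e1 : NN s E P Q R Λ Λ Λ - NN s E P Q R (lmz (z 0)) Λ Λ =
      T3 s P Q R (fun n => Λ n - lmz (z 0) n) (fun n => if n ≤ X ∧ CqI s E n then Λ n else 0)
        (fun n => if n ≤ X ∧ CrI s E n then Λ n else 0) := by
    unfold NN
    apply T3_sub
    intro x hx y hy w hw he
    rw [mem_Icc] at hx hy hw
    have hf := formI hs E he
    have hy' : y ≤ X := hy.2.trans hQX
    have hw' : w ≤ X := hw.2.trans hRX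
    by_cases h : W1 s E x ∧ W2 s E y
    · have h' := hf.2 h
      rw [if_pos h.1, if_pos h.2, if_pos h.1, if_pos ⟨hy', h'.1⟩, if_pos ⟨hw', h'.2⟩]
      ring
    · have h' : ¬ (CqI s E y ∧ CrI s E w) := fun hh => h (hf.1 hh)
      by_cases hq : CqI s E y
      · have hr : ¬ CrI s E w := fun hh => h' ⟨hq, hh⟩
        rw [if_neg (c := w ≤ X ∧ CrI s E w) (fun hh => hr hh.2)]
        by_cases hx1 : W1 s E x
        · have : ¬ W2 s E y := fun hh => h ⟨hx1, hh⟩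
          rw [if_neg this]
          ring
        · rw [if_neg hx1, if_neg hx1]
          ring
      · rw [if_neg (c := y ≤ X ∧ CqI s E y) (fun hh => hq hh.2)]
        by_cases hx1 : W1 s E x
        · have : ¬ W2 s E y := fun hh => h ⟨hx1, hh⟩
          rw [if_neg this]
          ring
        · rw [if_neg hx1, if_neg hx1]
          ring
  -- second step
  have e2 : NN s E P Q R (lmz (z 0)) Λ Λ - NN s E P Q R (lmz (z 0)) (lmz (z 1)) Λ =
      T3 s P Q R (fun n => if W1 s E n then lmz (z 0) n else 0) (fun n => Λ n - lmz (z 1) n)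
        (fun n => if n ≤ X ∧ CrII s E n then Λ n else 0) := by
    unfold NN
    apply T3_sub
    intro x hx y hy w hw he
    rw [mem_Icc] at hx hy hw
    have hf := formII hs E he
    have hw' : w ≤ X := hw.2.trans hRX
    by_cases hx1 : W1 s E x
    · by_cases hy1 : W2 s E y
      · have h' := (hf.2 ⟨hx1, hy1⟩).2
        rw [if_pos hx1, if_pos hy1, if_pos hy1, if_pos ⟨hw', h'⟩]
        ring
      · have hr : ¬ CrII s E w := fun hh => hy1 (hf.1 ⟨hx1, hh⟩).2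
        rw [if_neg hy1, if_neg hy1, if_neg (c := w ≤ X ∧ CrII s E w) (fun hh => hr hh.2)]
        ring
    · rw [if_neg hx1]
      ring
  -- third step
  have e3 : NN s E P Q R (lmz (z 0)) (lmz (z 1)) Λ - NN s E P Q R (lmz (z 0)) (lmz (z 1)) (lmz (z 2)) =
      T3 s P Q R (fun n => if W1 s E n then lmz (z 0) n else 0)
        (fun n => if W2 s E n then lmz (z 1) n else 0) (fun n => Λ n - lmz (z 2) n) := by
    unfold NN
    apply T3_sub
    intro x hx y hy w hw he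
    ring
  have g1 := (herr _ _ (hbd (CqI s E)) (hbd (CrI s E))).1
  have g2 := (herr _ _ (hbm (W1 s E) 0) (hbd (CrII s E))).2.1
  have g3 := (herr _ _ (hbm (W1 s E) 0) (hbm (W2 s E) 1)).2.2
  rw [← e1] at g1
  rw [← e2] at g2
  rw [← e3] at g3
  have hn1 : (0 : ℝ) < n := by
    have : 0 < s 0 * s 1 * s 2 := Nat.mul_pos (Nat.mul_pos hs.p0 hs.p1) hs.p2
    rw [hn, hs.n3]
    exact_mod_cast this
  obtain ⟨μ, hμ⟩ : ∃ μ : ℝ, μ = (X : ℝ) ^ 2 / (n : ℝ) := ⟨_, rfl⟩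
  have hμ0 : 0 < μ := by rw [hμ]; positivity
  rw [← hμ] at g1 g2 g3 hmod ⊢
  have hsmall : 3 * (μ / L ^ 40) ≤ c / 2 * (1 / 2) ^ n.primeFactors.card * μ := by
    have k1 : 1 / L ^ 20 ≤ (1 / 2 : ℝ) ^ n.primeFactors.card := by
      rw [one_div_pow]
      exact one_div_le_one_div_of_le (by positivity) hω
    have k2 : 3 / L ^ 40 ≤ c / 2 * (1 / L ^ 20) := by
      have k3 : 6 / c ≤ L ^ 20 := hL6.trans (by
        calc L = L ^ 1 := (pow_one L).symm
          _ ≤ L ^ 20 := pow_le_pow_right₀ hL1 (by norm_num))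
      rw [div_le_iff₀ hc] at k3
      rw [mul_one_div, div_le_div_iff₀ (by positivity) (by positivity)]
      have k4 : L ^ 40 = L ^ 20 * L ^ 20 := by rw [← pow_add]
      rw [k4]
      have k5 : 0 < L ^ 20 := by positivity
      nlinarith
    calc 3 * (μ / L ^ 40) = (3 / L ^ 40) * μ := by ring
      _ ≤ (c / 2 * (1 / L ^ 20)) * μ := by gcongr
      _ ≤ _ := by gcongr
  have j1 := abs_le.1 g1
  have j2 := abs_le.1 g2
  have j3 := abs_le.1 g3
  have hmod' : c * (1 / 2) ^ n.primeFactors.card * μ =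
      c / 2 * (1 / 2) ^ n.primeFactors.card * μ + c / 2 * (1 / 2) ^ n.primeFactors.card * μ := by
    ring
  linarith [j1.1, j2.1, j3.1]

/-- the von Mangoldt function at the primes larger than `√X` -/
noncomputable def lamB (X n : ℕ) : ℝ := if n.Prime ∧ X < n ^ 2 then Λ n else 0

lemma lamB_sum (X M : ℕ) (hM : 1 ≤ M) (hMX : M ≤ X) :
    ∑ n ∈ Icc 1 M, |Λ n - lamB X n| ≤ 3 * √(X : ℝ) * Real.log X := by
  classical
  have hX1 : (1 : ℝ) ≤ X := by exact_mod_cast hM.trans hMX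
  have hL0 : 0 ≤ Real.log X := Real.log_nonneg hX1
  have h1 : ∀ n, |Λ n - lamB X n| ≤ |Λ n - lamQ n| + |lamQ n - lamB X n| := fun n => by
    have : Λ n - lamB X n = (Λ n - lamQ n) + (lamQ n - lamB X n) := by ring
    rw [this]
    exact abs_add_le _ _
  refine (sum_le_sum fun n _ => h1 n).trans ?_
  rw [sum_add_distrib]
  have h2 : ∑ n ∈ Icc 1 M, |Λ n - lamQ n| ≤ 2 * √(X : ℝ) * Real.log X := by
    refine (lamQ_sum M hM).trans ?_
    have hM0 : (1 : ℝ) ≤ M := by exact_mod_cast hM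
    have hMr : (M : ℝ) ≤ X := by exact_mod_cast hMX
    have k1 : √(M : ℝ) ≤ √(X : ℝ) := Real.sqrt_le_sqrt hMr
    have k2 : Real.log M ≤ Real.log X := Real.log_le_log (by linarith) hMr
    have k3 : 0 ≤ Real.log M := Real.log_nonneg hM0
    gcongr
  have h3 : ∑ n ∈ Icc 1 M, |lamQ n - lamB X n| ≤ √(X : ℝ) * Real.log X := by
    have k1 : ∀ n ∈ Icc 1 M, |lamQ n - lamB X n| ≤ if n ≤ Nat.sqrt X then Real.log X else 0 := by
      intro n hn
      rw [mem_Icc] at hn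
      unfold lamQ lamB
      by_cases hp : n.Prime
      · by_cases hX : X < n ^ 2
        · rw [if_pos hp, if_pos ⟨hp, hX⟩, sub_self, abs_zero]
          split_ifs
          · exact hL0
          · exact le_rfl
        · have hle : n ≤ Nat.sqrt X := by
            rw [Nat.le_sqrt']
            omega
          rw [if_pos hp, if_neg (fun h => hX h.2), sub_zero, if_pos hle]
          exact lam_bound (P := X) le_rfl n (mem_Icc.2 ⟨hn.1, hn.2.trans hMX⟩)
      · rw [if_neg hp, if_neg (fun h => hp h.1), sub_zero, abs_zero]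
        split_ifs
        · exact hL0
        · exact le_rfl
    refine (sum_le_sum k1).trans ?_
    rw [← sum_filter, sum_const, nsmul_eq_mul]
    refine mul_le_mul_of_nonneg_right ?_ hL0
    have k2 : (filter (fun n => n ≤ Nat.sqrt X) (Icc 1 M)).card ≤ Nat.sqrt X := by
      calc (filter (fun n => n ≤ Nat.sqrt X) (Icc 1 M)).card ≤ (Icc 1 (Nat.sqrt X)).card := by
            apply card_le_card
            intro n hn
            rw [mem_filter, mem_Icc] at hn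
            rw [mem_Icc]
            exact ⟨hn.1.1, hn.2⟩
        _ = Nat.sqrt X := by rw [Nat.card_Icc]; omega
    calc ((filter (fun n => n ≤ Nat.sqrt X) (Icc 1 M)).card : ℝ) ≤ (Nat.sqrt X : ℝ) := by
          exact_mod_cast k2
      _ ≤ √(X : ℝ) := Real.nat_sqrt_le_real_sqrt
  linarith

lemma T3_triv {s : Fin 3 → ℕ} (hs : Stc s) {X P Q R : ℕ} (hP : P ≤ X) (hQ : Q ≤ X)
    {e g h : ℕ → ℝ} {V Er : ℝ} (hV : 0 ≤ V) (hEr : 0 ≤ Er) :
    ((∀ n ∈ Icc 1 Q, |g n| ≤ V) → (∀ n ∈ Icc 1 R, |h n| ≤ V) → (∑ n ∈ Icc 1 P, |e n| ≤ Er) →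
      |T3 s P Q R e g h| ≤ Er * (V ^ 2 * (X + 1))) ∧
    ((∀ n ∈ Icc 1 P, |g n| ≤ V) → (∀ n ∈ Icc 1 R, |h n| ≤ V) → (∑ n ∈ Icc 1 Q, |e n| ≤ Er) →
      |T3 s P Q R g e h| ≤ Er * (V ^ 2 * (X + 1))) ∧
    ((∀ n ∈ Icc 1 P, |g n| ≤ V) → (∀ n ∈ Icc 1 Q, |h n| ≤ V) → (∑ n ∈ Icc 1 R, |e n| ≤ Er) →
      |T3 s P Q R g h e| ≤ Er * (V ^ 2 * (X + 1))) := by
  have hT3 : ∀ f g h : ℕ → ℝ, T3 s P Q R f g h =
      S3 (s 0 : ℤ) (-(s 1 : ℤ)) (4 * (s 2 : ℤ)) 0 P Q R f g h := fun f g h => rfl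
  have p0 := hs.p0
  have p1 := hs.p1
  have p2 := hs.p2
  have key : ∀ (P2 : ℕ) (c2 c3 : ℤ), c3 ≠ 0 → P2 ≤ X →
      (P2 : ℝ) * (Nat.gcd c2.natAbs c3.natAbs : ℕ) / c3.natAbs + 1 ≤ X + 1 := by
    intro P2 c2 c3 h3 hP2
    have h4 : 1 ≤ c3.natAbs := Int.natAbs_pos.2 h3
    have h5 : (0 : ℝ) < c3.natAbs := by exact_mod_cast h4
    have h6 : ((Nat.gcd c2.natAbs c3.natAbs : ℕ) : ℝ) ≤ c3.natAbs := by
      exact_mod_cast Nat.gcd_le_right _ h4
    have h7 : (P2 : ℝ) ≤ X := by exact_mod_cast hP2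
    have h8 : (P2 : ℝ) * (Nat.gcd c2.natAbs c3.natAbs : ℕ) / c3.natAbs ≤ X := by
      rw [div_le_iff₀ h5]
      exact mul_le_mul h7 h6 (Nat.cast_nonneg _) (Nat.cast_nonneg _)
    linarith
  refine ⟨fun hg hh he => ?_, fun hg hh he => ?_, fun hg hh he => ?_⟩
  · rw [hT3]
    refine (triv (by omega) hV hg hh he).trans ?_
    refine mul_le_mul_of_nonneg_left (mul_le_mul_of_nonneg_left ?_ (by positivity)) hEr
    exact key Q _ _ (by omega) hQ
  · rw [hT3, S3_swap]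
    refine (triv (by omega) hV hg hh he).trans ?_
    refine mul_le_mul_of_nonneg_left (mul_le_mul_of_nonneg_left ?_ (by positivity)) hEr
    exact key P _ _ (by omega) hP
  · rw [hT3, S3_rot, S3_rot]
    refine (triv (by omega) hV hg hh he).trans ?_
    refine mul_le_mul_of_nonneg_left (mul_le_mul_of_nonneg_left ?_ (by positivity)) hEr
    exact key P _ _ (by omega) hP

end Pool.Agent.L0h44.RZ
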