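import Pool.Agent.L0h94.RZ.Defs
import Pool.Agent.Y883.T6.Scale6
import Pool.Agent.Y883.T6.Err6

/-!
# Project RZ, part ANA: the von Mangoldt function may be replaced by its model
-/

set_option autoImplicit false

namespace Pool.Agent.L0h44.RZ

open Finset
open Pool.Agent.L0h94.RZ
open Pool.Agent.Y883.T3
open Pool.Agent.Y883.T4
open Pool.Agent.Y883.T5
open Pool.Agent.Y883.T6

lemma odd_part {e m : ℕ} (hm : Odd m) (h : e ∣ 4 * m) :
    ordCompl[2] e ∣ m ∧ e ≤ 4 * ordCompl[2] e := by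
  have hm0 : 4 * m ≠ 0 := by
    have := hm.pos
    omega
  have he0 : e ≠ 0 := fun h0 => hm0 (by rw [h0] at h; exact Nat.eq_zero_of_zero_dvd h)
  have e1 : 2 ^ e.factorization 2 * ordCompl[2] e = e := Nat.ordProj_mul_ordCompl_eq_self e 2
  have hc : Nat.Coprime 2 (ordCompl[2] e) := Nat.coprime_ordCompl Nat.prime_two he0
  have hd1 : ordCompl[2] e ∣ 4 * m := (Nat.ordCompl_dvd e 2).trans h
  have hd2 : 2 ^ e.factorization 2 ∣ 4 * m := (Nat.ordProj_dvd e 2).trans h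
  have hc4 : Nat.Coprime (ordCompl[2] e) 4 := by
    have : Nat.Coprime (2 ^ 2) (ordCompl[2] e) := hc.pow_left 2
    exact this.symm
  have hcm : Nat.Coprime (2 ^ e.factorization 2) m :=
    Nat.Coprime.pow_left _ (Nat.coprime_two_left.2 hm)
  refine ⟨hc4.dvd_of_dvd_mul_left hd1, ?_⟩
  have h4 : 2 ^ e.factorization 2 ∣ 4 := hcm.dvd_of_dvd_mul_right hd2
  have h5 : 2 ^ e.factorization 2 ≤ 4 := Nat.le_of_dvd (by norm_num) h4
  calc e = 2 ^ e.factorization 2 * ordCompl[2] e := e1.symm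
    _ ≤ 4 * ordCompl[2] e := Nat.mul_le_mul_right _ h5

theorem ana : S_ANA := by
  classical
  intro ρ T hρ
  obtain ⟨ρ', hρ'⟩ : ∃ ρ' : ℝ, ρ' = min (ρ / 2) (1 / 8) := ⟨_, rfl⟩
  have hρ'0 : 0 < ρ' := by rw [hρ']; exact lt_min (by linarith) (by norm_num)
  have hρ'1 : ρ' ≤ ρ / 2 := by rw [hρ']; exact min_le_left _ _
  have hρ'2 : ρ' ≤ 1 / 8 := by rw [hρ']; exact min_le_right _ _
  obtain ⟨K, hK⟩ := exists_nat_ge (4 / ρ)
  obtain ⟨A, hA⟩ : ∃ A : ℕ, A = 4 * T + 22 + K := ⟨_, rfl⟩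
  obtain ⟨B, c, N0, hB, hsc⟩ := scale6 A (7 * T + 13) 2 ρ' hρ'0
  obtain ⟨N1, herr⟩ := err_model T A (7 * T + 13) B (1 / 4) (by norm_num) (by omega) le_rfl
  choose! DD FF h1 h2 h3 h4 h5 using hsc
  obtain ⟨M1, hM1⟩ := Pool.Agent.H373R2.T7.ev_L' (100 + 2 ^ B + 4 * (5 / 4) ^ A)
  obtain ⟨M2, hM2⟩ := Pool.Agent.Y883.tendsto_pow_log (N0 + 8 : ℝ) (1 / 10) (by norm_num)
  refine ⟨B, N1 + M1 + M2 + 2, hB, fun X hX => ?_⟩
  have hL := hM1 X (by omega)
  have hX10 := hM2 X (by omega)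
  have hX0 : (0 : ℝ) < X := by exact_mod_cast (by omega : 0 < X)
  have hX1 : (1 : ℝ) ≤ X := by exact_mod_cast (by omega : 1 ≤ X)
  obtain ⟨L, hLd⟩ : ∃ L, L = Real.log (X : ℝ) := ⟨_, rfl⟩
  rw [← hLd] at hL ⊢
  have hp1 : (0 : ℝ) < 2 ^ B := by positivity
  have hp2 : (0 : ℝ) < 4 * (5 / 4) ^ A := by positivity
  have hL100 : 100 ≤ L := by linarith
  have hL0 : 0 < L := by linarith
  have hL1 : 1 ≤ L := by linarith
  have hLB : (2 : ℝ) ^ B ≤ L := by linarith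
  have hLA : 4 * (5 / 4 : ℝ) ^ A ≤ L := by linarith
  have hN0r : (0 : ℝ) ≤ N0 := Nat.cast_nonneg _
  have hX8 : (8 : ℝ) ≤ (X : ℝ) ^ (1 / 10 : ℝ) := by linarith
  -- powers of X
  have hXa : ∀ a b : ℝ, (X : ℝ) ^ a * (X : ℝ) ^ b = (X : ℝ) ^ (a + b) := fun a b =>
    (Real.rpow_add hX0 a b).symm
  have hX45 : 4 * (X : ℝ) ^ (1 / 10 : ℝ) ≤ (X : ℝ) ^ (2 / 5 : ℝ) := by
    have e1 : (X : ℝ) ^ (2 / 5 : ℝ) = (X : ℝ) ^ (1 / 10 : ℝ) * ((X : ℝ) ^ (1 / 10 : ℝ) *
        (X : ℝ) ^ (1 / 5 : ℝ)) := by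
      rw [hXa, hXa]
      norm_num
    rw [e1]
    have e2 : (1 : ℝ) ≤ (X : ℝ) ^ (1 / 5 : ℝ) := Real.one_le_rpow hX1 (by norm_num)
    have e3 : (4 : ℝ) ≤ (X : ℝ) ^ (1 / 10 : ℝ) * (X : ℝ) ^ (1 / 5 : ℝ) := by
      calc (4 : ℝ) ≤ 8 * 1 := by norm_num
        _ ≤ _ := mul_le_mul hX8 e2 (by norm_num) (by linarith)
    rw [mul_comm (4 : ℝ)]
    exact mul_le_mul_of_nonneg_left e3 (by linarith)
  have hX25 : (X : ℝ) ^ (2 / 5 : ℝ) ≤ (X : ℝ) ^ (4 / 5 : ℝ) :=
    Real.rpow_le_rpow_of_exponent_le hX1 (by norm_num)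
  have hNX : (N0 : ℝ) ≤ (X : ℝ) ^ (4 / 5 : ℝ) := by
    have : (X : ℝ) ^ (1 / 10 : ℝ) ≤ (X : ℝ) ^ (4 / 5 : ℝ) :=
      Real.rpow_le_rpow_of_exponent_le hX1 (by norm_num)
    linarith
  obtain ⟨D, hD⟩ : ∃ D : Finset ℕ, D = (range (Nat.log 2 X + 1)).biUnion (fun k =>
      if (X : ℝ) ^ (4 / 5 : ℝ) ≤ ((2 ^ k : ℕ) : ℝ) then
        ((DD (2 ^ k)).filter (fun e => e ≤ 4 * ordCompl[2] e)).image (fun e => ordCompl[2] e)
      else ∅) := ⟨_, rfl⟩
  have hDmem : ∀ e', e' ∈ D ↔ ∃ k, k < Nat.log 2 X + 1 ∧ (X : ℝ) ^ (4 / 5 : ℝ) ≤ ((2 ^ k : ℕ) : ℝ) ∧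
      ∃ e ∈ DD (2 ^ k), e ≤ 4 * ordCompl[2] e ∧ ordCompl[2] e = e' := by
    intro e'
    rw [hD, mem_biUnion]
    constructor
    · rintro ⟨k, hk, he⟩
      rw [mem_range] at hk
      split_ifs at he with hc
      · rw [mem_image] at he
        obtain ⟨e, he, rfl⟩ := he
        rw [mem_filter] at he
        exact ⟨k, hk, hc, e, he.1, he.2, rfl⟩
      · exact absurd he (notMem_empty _)
    · rintro ⟨k, hk, hc, e, he1, he2, he3⟩
      refine ⟨k, mem_range.2 hk, ?_⟩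
      rw [if_pos hc, mem_image]
      exact ⟨e, mem_filter.2 ⟨he1, he2⟩, he3⟩
  have hNk : ∀ P : ℕ, (X : ℝ) ^ (4 / 5 : ℝ) ≤ (P : ℝ) → N0 ≤ P := by
    intro P hP
    exact_mod_cast hNX.trans hP
  have hlogP : ∀ P : ℕ, (X : ℝ) ^ (4 / 5 : ℝ) ≤ (P : ℝ) → 4 / 5 * L ≤ Real.log P := by
    intro P hP
    have := Real.log_le_log (by positivity) hP
    rw [Real.log_rpow hX0, ← hLd] at this
    exact this
  have hbig : ∀ e' ∈ D, L ^ (A - 1) < (e' : ℝ) := by
    intro e' he'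
    rw [hDmem] at he'
    obtain ⟨k, hk, hc, e, he1, he2, rfl⟩ := he'
    have g1 := h1 (2 ^ k) (hNk _ hc) e he1
    have g2 := hlogP _ hc
    have g3 : (4 / 5 * L) ^ A ≤ Real.log ((2 ^ k : ℕ) : ℝ) ^ A :=
      pow_le_pow_left₀ (by positivity) g2 A
    have g4 : (e : ℝ) ≤ 4 * (ordCompl[2] e : ℕ) := by exact_mod_cast he2
    have g5 : 4 * L ^ (A - 1) ≤ (4 / 5 * L) ^ A := by
      have e1 : L ^ A = L ^ (A - 1) * L := by
        rw [← pow_succ]
        congr 1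
        omega
      rw [mul_pow, e1]
      have e2 : 4 ≤ (4 / 5 : ℝ) ^ A * L := by
        have e3 : (4 / 5 : ℝ) ^ A * (5 / 4) ^ A = 1 := by
          rw [← mul_pow]
          norm_num
        calc (4 : ℝ) = (4 / 5 : ℝ) ^ A * (4 * (5 / 4) ^ A) := by linear_combination (-4) * e3
          _ ≤ (4 / 5 : ℝ) ^ A * L := by gcongr
      calc 4 * L ^ (A - 1) ≤ ((4 / 5 : ℝ) ^ A * L) * L ^ (A - 1) := by gcongr
        _ = _ := by ring
    linarith
  refine ⟨D, ⟨fun e' he' => ?_, fun x => ?_⟩, ?_⟩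
  · refine lt_of_le_of_lt ?_ (hbig e' he')
    rw [← hLd]
    exact pow_le_pow_right₀ hL1 (by omega)
  · -- the number of the elements
    by_cases hne : ∃ e' ∈ D, e' ≤ x
    · obtain ⟨e₁, he₁, hx₁⟩ := hne
      have hxL : L ^ (A - 1) ≤ (x : ℝ) := by
        have g1 := hbig e₁ he₁
        have g2 : (e₁ : ℝ) ≤ x := by exact_mod_cast hx₁
        linarith
      have hx1 : (1 : ℝ) ≤ x := (one_le_pow₀ hL1).trans hxL
      have hx0 : (0 : ℝ) < x := by linarith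
      have hsub : D.filter (fun e => e ≤ x) ⊆ (range (Nat.log 2 X + 1)).biUnion (fun k =>
          if (X : ℝ) ^ (4 / 5 : ℝ) ≤ ((2 ^ k : ℕ) : ℝ) then
            ((DD (2 ^ k)).filter (fun e : ℕ => (e : ℝ) ≤ 4 * x)).image (fun e => ordCompl[2] e)
          else ∅) := by
        intro e' he'
        rw [mem_filter, hDmem] at he'
        obtain ⟨⟨k, hk, hc, e, he1, he2, he3⟩, hx⟩ := he'
        rw [mem_biUnion]
        refine ⟨k, mem_range.2 hk, ?_⟩
        rw [if_pos hc, mem_image]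
        refine ⟨e, mem_filter.2 ⟨he1, ?_⟩, he3⟩
        have g1 : e ≤ 4 * x := he2.trans (by rw [he3]; omega)
        exact_mod_cast g1
      have hcard : ((D.filter (fun e => e ≤ x)).card : ℝ) ≤
          (Nat.log 2 X + 1 : ℕ) * (4 * (x : ℝ)) ^ ρ' := by
        have g1 := (card_le_card hsub).trans card_biUnion_le
        calc ((D.filter (fun e => e ≤ x)).card : ℝ) ≤
              ((∑ k ∈ range (Nat.log 2 X + 1), (if (X : ℝ) ^ (4 / 5 : ℝ) ≤ ((2 ^ k : ℕ) : ℝ) then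
            ((DD (2 ^ k)).filter (fun e : ℕ => (e : ℝ) ≤ 4 * x)).image (fun e => ordCompl[2] e)
              else ∅).card : ℕ) : ℝ) := by exact_mod_cast g1
          _ = ∑ k ∈ range (Nat.log 2 X + 1), ((if (X : ℝ) ^ (4 / 5 : ℝ) ≤ ((2 ^ k : ℕ) : ℝ) then
            ((DD (2 ^ k)).filter (fun e : ℕ => (e : ℝ) ≤ 4 * x)).image (fun e => ordCompl[2] e)
              else ∅).card : ℝ) := by push_cast; rfl
          _ ≤ ∑ _k ∈ range (Nat.log 2 X + 1), (4 * (x : ℝ)) ^ ρ' := by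
              refine sum_le_sum fun k _ => ?_
              split_ifs with hc
              · have g2 := h2 (2 ^ k) (hNk _ hc) (4 * x) (by linarith)
                refine le_trans ?_ g2
                exact_mod_cast card_image_le
              · rw [card_empty, Nat.cast_zero]
                positivity
          _ = _ := by rw [sum_const, card_range, nsmul_eq_mul]
      have hlog2 : ((Nat.log 2 X + 1 : ℕ) : ℝ) ≤ 3 * L := by
        have e1 : (Nat.log 2 X : ℝ) ≤ Real.logb 2 X := by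
          have := Real.natLog_le_logb X 2
          exact_mod_cast this
        have e2 : Real.logb 2 X ≤ 2 * L := by
          rw [Real.logb, ← hLd, div_le_iff₀ (Real.log_pos (by norm_num))]
          have h2 : (1 : ℝ) ≤ 2 * Real.log 2 := by linarith [Real.log_two_gt_d9]
          nlinarith
        push_cast
        linarith
      have hsplit : (x : ℝ) ^ ρ = (x : ℝ) ^ ρ' * (x : ℝ) ^ (ρ - ρ') := by
        rw [← Real.rpow_add hx0]
        congr 1
        ring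
      have hA1 : (2 : ℝ) ≤ ((A - 1 : ℕ) : ℝ) * (ρ / 2) := by
        have e1 : (K : ℝ) ≤ ((A - 1 : ℕ) : ℝ) := by
          exact_mod_cast (by omega : K ≤ A - 1)
        have e2 : 4 / ρ * (ρ / 2) = 2 := by field_simp; norm_num
        calc (2 : ℝ) = 4 / ρ * (ρ / 2) := e2.symm
          _ ≤ _ := mul_le_mul_of_nonneg_right (hK.trans e1) (by linarith)
      have hgain : L ^ 2 ≤ (x : ℝ) ^ (ρ - ρ') := by
        calc L ^ 2 = L ^ (2 : ℝ) := by norm_cast
          _ ≤ L ^ (((A - 1 : ℕ) : ℝ) * (ρ / 2)) := Real.rpow_le_rpow_of_exponent_le hL1 hA1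
          _ = (L ^ (A - 1)) ^ (ρ / 2) := by
              rw [Real.rpow_mul hL0.le, Real.rpow_natCast]
          _ ≤ (x : ℝ) ^ (ρ / 2) := Real.rpow_le_rpow (by positivity) hxL (by linarith)
          _ ≤ (x : ℝ) ^ (ρ - ρ') := Real.rpow_le_rpow_of_exponent_le hx1 (by linarith)
      have h4x : (4 * (x : ℝ)) ^ ρ' ≤ 4 * (x : ℝ) ^ ρ' := by
        rw [Real.mul_rpow (by norm_num) hx0.le]
        have : (4 : ℝ) ^ ρ' ≤ 4 ^ (1 : ℝ) :=
          Real.rpow_le_rpow_of_exponent_le (by norm_num) (by linarith)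
        rw [Real.rpow_one] at this
        gcongr
      calc ((D.filter (fun e => e ≤ x)).card : ℝ) ≤
            (Nat.log 2 X + 1 : ℕ) * (4 * (x : ℝ)) ^ ρ' := hcard
        _ ≤ (3 * L) * (4 * (x : ℝ) ^ ρ') := by gcongr
        _ = (x : ℝ) ^ ρ' * (12 * L) := by ring
        _ ≤ (x : ℝ) ^ ρ' * L ^ 2 := by
            have : 12 * L ≤ L ^ 2 := by nlinarith
            gcongr
        _ ≤ (x : ℝ) ^ ρ' * (x : ℝ) ^ (ρ - ρ') := by gcongr
        _ = _ := hsplit.symm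
    · push Not at hne
      have : D.filter (fun e => e ≤ x) = ∅ := by
        rw [filter_eq_empty_iff]
        intro e he hx
        exact absurd hx (not_le.2 (hne e he))
      rw [this, card_empty, Nat.cast_zero]
      positivity
  · intro s P Q R hSt hprod hCln hSz
    obtain ⟨hsq, hc6⟩ := hSt
    obtain ⟨n, hn⟩ : ∃ n : ℕ, n = ∏ i, s i := ⟨_, rfl⟩
    rw [← hn] at hsq hc6 hprod hCln ⊢
    have hn3 : n = s 0 * s 1 * s 2 := by rw [hn, Fin.prod_univ_three]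
    have hn0 : n ≠ 0 := hsq.ne_zero
    have hs0 : 1 ≤ s 0 := by
      rcases Nat.eq_zero_or_pos (s 0) with h | h
      · exact absurd (by rw [hn3, h]; ring) hn0
      · exact h
    have hs1 : 1 ≤ s 1 := by
      rcases Nat.eq_zero_or_pos (s 1) with h | h
      · exact absurd (by rw [hn3, h]; ring) hn0
      · exact h
    have hs2 : 1 ≤ s 2 := by
      rcases Nat.eq_zero_or_pos (s 2) with h | h
      · exact absurd (by rw [hn3, h]; ring) hn0
      · exact h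
    have hodd : ∀ m, m ∣ n → Odd m := by
      intro m hm
      have h6 : Nat.Coprime m 6 := Nat.Coprime.coprime_dvd_left hm hc6
      have h62 : Nat.Coprime m 2 := Nat.Coprime.coprime_dvd_right (by norm_num) h6
      exact Nat.coprime_two_right.1 h62
    have hd0 : s 0 ∣ n := ⟨s 1 * s 2, by rw [hn3]; ring⟩
    have hd1 : s 1 ∣ n := ⟨s 0 * s 2, by rw [hn3]; ring⟩
    have hd2 : s 2 ∣ n := ⟨s 0 * s 1, by rw [hn3]; ring⟩
    have hd01 : s 0 * s 1 ∣ n := ⟨s 2, by rw [hn3]⟩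
    have hd02 : s 0 * s 2 ∣ n := ⟨s 1, by rw [hn3]; ring⟩
    have hd12 : s 1 * s 2 ∣ n := ⟨s 0, by rw [hn3]; ring⟩
    have hc01 : Nat.Coprime (s 0) (s 1) :=
      Nat.coprime_of_squarefree_mul (hsq.squarefree_of_dvd hd01)
    have hc02 : Nat.Coprime (s 0) (s 2) :=
      Nat.coprime_of_squarefree_mul (hsq.squarefree_of_dvd hd02)
    have hc12 : Nat.Coprime (s 1) (s 2) :=
      Nat.coprime_of_squarefree_mul (hsq.squarefree_of_dvd hd12)
    have hle : ∀ m, m ∣ n → (m : ℝ) ≤ (X : ℝ) ^ (1 / 10 : ℝ) := by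
      intro m hm
      refine le_trans ?_ hprod
      exact_mod_cast Nat.le_of_dvd (Nat.pos_of_ne_zero hn0) hm
    -- sizes of the scales
    have hsize : ∀ (a P : ℕ), (a : ℝ) ≤ 4 * (X : ℝ) ^ (1 / 10 : ℝ) → X < 2 * (a * P) →
        (X : ℝ) ^ (4 / 5 : ℝ) ≤ (P : ℝ) := by
      intro a P ha hP
      have g1 : (X : ℝ) ≤ 2 * (a * P) := by exact_mod_cast hP.le
      have g2 : (X : ℝ) = (X : ℝ) ^ (4 / 5 : ℝ) * ((X : ℝ) ^ (1 / 10 : ℝ) *
          (X : ℝ) ^ (1 / 10 : ℝ)) := by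
        rw [hXa, hXa]
        norm_num
      have g3 : (X : ℝ) ≤ 8 * (X : ℝ) ^ (1 / 10 : ℝ) * P := by
        have hP0 : (0 : ℝ) ≤ P := Nat.cast_nonneg _
        nlinarith [mul_le_mul_of_nonneg_right ha hP0]
      have hp : (0 : ℝ) < (X : ℝ) ^ (1 / 10 : ℝ) := by positivity
      have hp45 : (0 : ℝ) < (X : ℝ) ^ (4 / 5 : ℝ) := by positivity
      have g4 : (X : ℝ) ^ (4 / 5 : ℝ) * (8 * (X : ℝ) ^ (1 / 10 : ℝ)) ≤
          P * (8 * (X : ℝ) ^ (1 / 10 : ℝ)) := by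
        calc (X : ℝ) ^ (4 / 5 : ℝ) * (8 * (X : ℝ) ^ (1 / 10 : ℝ)) ≤
              (X : ℝ) ^ (4 / 5 : ℝ) * ((X : ℝ) ^ (1 / 10 : ℝ) * (X : ℝ) ^ (1 / 10 : ℝ)) := by
              gcongr
          _ = X := g2.symm
          _ ≤ 8 * (X : ℝ) ^ (1 / 10 : ℝ) * P := g3
          _ = _ := by ring
      exact le_of_mul_le_mul_right g4 (by positivity)
    have hG : ∀ (P m q : ℕ), (∃ k : ℕ, P = 2 ^ k) → (X : ℝ) ^ (4 / 5 : ℝ) ≤ (P : ℝ) → P ≤ X →
        m ∣ n → q ∣ 4 * m →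
        q ≤ P ∧ (∀ e ∈ DD P, ¬ e ∣ q) ∧ q ∉ FF P := by
      intro P m q hP2 hPX hPle hm hq
      have hmo := hodd m hm
      have hq1 : q ≤ 4 * m := Nat.le_of_dvd (by have := hmo.pos; omega) hq
      have hq2 : (q : ℝ) ≤ (X : ℝ) ^ (2 / 5 : ℝ) := by
        have g1 : (q : ℝ) ≤ 4 * m := by exact_mod_cast hq1
        have g2 := hle m hm
        linarith
      refine ⟨?_, ?_, ?_⟩
      · exact_mod_cast hq2.trans (hX25.trans hPX)
      · intro e he hdiv
        obtain ⟨g1, g2⟩ := odd_part hmo (hdiv.trans hq)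
        obtain ⟨k, rfl⟩ := hP2
        refine hCln (ordCompl[2] e) ?_ (g1.trans hm)
        rw [hDmem]
        refine ⟨k, ?_, hPX, e, he, g2, rfl⟩
        have := (Nat.le_log_iff_pow_le (b := 2) (by norm_num) (by omega)).2 hPle
        omega
      · intro hF
        have g1 := (h3 P (hNk P hPX) q hF).1
        have hP1 : (1 : ℝ) ≤ P := (Real.one_le_rpow hX1 (by norm_num)).trans hPX
        have g2 : (X : ℝ) ^ (2 / 5 : ℝ) ≤ (P : ℝ) ^ (2 / 3 - ρ') := by
          calc (X : ℝ) ^ (2 / 5 : ℝ) = ((X : ℝ) ^ (4 / 5 : ℝ)) ^ (1 / 2 : ℝ) := by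
                rw [← Real.rpow_mul hX0.le]
                norm_num
            _ ≤ (P : ℝ) ^ (1 / 2 : ℝ) := Real.rpow_le_rpow (by positivity) hPX (by norm_num)
            _ ≤ (P : ℝ) ^ (2 / 3 - ρ') := Real.rpow_le_rpow_of_exponent_le hP1 (by linarith)
        linarith
    have hz : ∀ P : ℕ, (X : ℝ) ^ (4 / 5 : ℝ) ≤ (P : ℝ) → P ≤ X →
        L ^ (B - 1) ≤ (zP B P : ℝ) ∧ (zP B P : ℝ) ≤ L ^ (B + 1) := by
      intro P hPX hPle
      have hP0 : (0 : ℝ) < P := lt_of_lt_of_le (by positivity) hPX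
      have g1 := hlogP P hPX
      have g2 : Real.log P ≤ L := by
        rw [hLd]
        exact Real.log_le_log hP0 (by exact_mod_cast hPle)
      have g3 : L / 2 ≤ Real.log P := by linarith
      constructor
      · have e1 : L ^ B = L ^ (B - 1) * L := by
          rw [← pow_succ]
          congr 1
          omega
        calc L ^ (B - 1) ≤ (L / 2) ^ B := by
              rw [div_pow, le_div_iff₀ hp1, e1]
              gcongr
          _ ≤ Real.log P ^ B := pow_le_pow_left₀ (by positivity) g3 B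
          _ ≤ _ := Nat.le_ceil _
      · have e2 : 0 ≤ Real.log P := by linarith
        have e3 := Nat.ceil_lt_add_one (show 0 ≤ Real.log P ^ B by positivity)
        have e4 : Real.log P ^ B ≤ L ^ B := pow_le_pow_left₀ e2 g2 B
        have e5 : 1 ≤ L ^ B := one_le_pow₀ hL1
        calc (zP B P : ℝ) ≤ Real.log P ^ B + 1 := e3.le
          _ ≤ 2 * L ^ B := by linarith
          _ ≤ L * L ^ B := by gcongr; linarith
          _ = L ^ (B + 1) := by ring
    have hPle : P ≤ X := (Nat.le_mul_of_pos_left _ hs0).trans hSz.p1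
    have hQle : Q ≤ X := (Nat.le_mul_of_pos_left _ hs1).trans hSz.q1
    have hRle : R ≤ X := (Nat.le_mul_of_pos_left _ (by omega : 0 < 4 * s 2)).trans hSz.r1
    have hxp : (0 : ℝ) < (X : ℝ) ^ (1 / 10 : ℝ) := by positivity
    have hPX := hsize (s 0) P ((hle _ hd0).trans (by linarith)) hSz.p3
    have hQX := hsize (s 1) Q ((hle _ hd1).trans (by linarith)) hSz.q3
    have hRX := hsize (4 * s 2) R (by push_cast; have := hle _ hd2; linarith) hSz.r3
    have hq0 : ((s 0 : ℤ)).natAbs = s 0 := Int.natAbs_natCast _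
    have hq1 : (-(s 1 : ℤ)).natAbs = s 1 := by rw [Int.natAbs_neg, Int.natAbs_natCast]
    have hq2 : (4 * (s 2 : ℤ)).natAbs = 4 * s 2 := by
      rw [Int.natAbs_mul, Int.natAbs_natCast]
      rfl
    have hX12 : (X : ℝ) ^ (2 / 5 : ℝ) ≤ (X : ℝ) ^ (1 - 2 * (1 / 4) : ℝ) :=
      Real.rpow_le_rpow_of_exponent_le hX1 (by norm_num)
    have hTT : (1 : ℝ) ≤ Real.log X ^ T := by
      rw [← hLd]
      exact one_le_pow₀ hL1
    have hodd0 : Odd (s 0) := hodd _ hd0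
    have hodd1 : Odd (s 1) := hodd _ hd1
    have hPar : Par6 (1 / 4) X T (s 0 : ℤ) (-(s 1 : ℤ)) (4 * (s 2 : ℤ)) 0 P Q R := by
      refine ⟨by omega, by omega, by omega, ?_, ?_, ?_, ?_, ?_, ?_, by simp, ?_, ?_, ?_, ?_, ?_, ?_⟩
      · rw [hq0]; exact hSz.p1
      · rw [hq1]; exact hSz.q1
      · rw [hq2]; exact hSz.r1
      · rw [hq0]; exact hSz.p3
      · rw [hq1]; exact hSz.q3
      · rw [hq2]; exact hSz.r3
      · rw [hq0, hq1]
        have := hle _ hd01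
        linarith
      · rw [hq0, hq2]
        have := hle _ hd02
        push_cast at this ⊢
        linarith
      · rw [hq1, hq2]
        have := hle _ hd12
        push_cast at this ⊢
        linarith
      · rw [hq0, hq1, hc01.gcd_eq_one, Nat.cast_one]
        exact hTT
      · have h4 : Nat.Coprime (s 0) (4 * s 2) :=
          Nat.Coprime.mul_right (Nat.Coprime.pow_right 2 (Nat.coprime_two_right.2 hodd0)) hc02
        rw [hq0, hq2, h4.gcd_eq_one, Nat.cast_one]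
        exact hTT
      · have h4 : Nat.Coprime (s 1) (4 * s 2) :=
          Nat.Coprime.mul_right (Nat.Coprime.pow_right 2 (Nat.coprime_two_right.2 hodd1)) hc12
        rw [hq1, hq2, h4.gcd_eq_one, Nat.cast_one]
        exact hTT
    -- the final bound
    have hfin : ∀ V : ℝ, V ≤ (X : ℝ) ^ 2 / ((s 0 : ℝ) * (s 1) * (4 * s 2)) / L ^ (6 * T + 10) →
        V ≤ (X : ℝ) ^ 2 / (n : ℝ) / L ^ T := by
      intro V hV
      refine hV.trans ?_
      have hs0r : (1 : ℝ) ≤ s 0 := by exact_mod_cast hs0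
      have hs1r : (1 : ℝ) ≤ s 1 := by exact_mod_cast hs1
      have hs2r : (1 : ℝ) ≤ s 2 := by exact_mod_cast hs2
      have hnr : (n : ℝ) = (s 0 : ℝ) * (s 1) * (s 2) := by rw [hn3]; push_cast; ring
      have hnpos : (0 : ℝ) < n := by exact_mod_cast Nat.pos_of_ne_zero hn0
      have e1 : (n : ℝ) ≤ (s 0 : ℝ) * (s 1) * (4 * s 2) := by
        rw [hnr] at hnpos ⊢
        linarith
      have e2 : L ^ T ≤ L ^ (6 * T + 10) := pow_le_pow_right₀ hL1 (by omega)
      have e3 : 0 < L ^ T := by positivity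
      calc (X : ℝ) ^ 2 / ((s 0 : ℝ) * (s 1) * (4 * s 2)) / L ^ (6 * T + 10)
          ≤ (X : ℝ) ^ 2 / (n : ℝ) / L ^ (6 * T + 10) := by gcongr
        _ ≤ _ := by gcongr
    refine ⟨![zP B P, zP B Q, zP B R], ?_, ?_⟩
    · intro i
      fin_cases i
      · exact hz P hPX hPle
      · exact hz Q hQX hQle
      · exact hz R hRX hRle
    · intro g h hg hh
      have hg' : ∀ M : ℕ, ∀ n ∈ Icc 1 M, |g n| ≤ Real.log X := fun M n _ => by
        rw [← hLd]; exact hg n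
      have hh' : ∀ M : ℕ, ∀ n ∈ Icc 1 M, |h n| ≤ Real.log X := fun M n _ => by
        rw [← hLd]; exact hh n
      have hT3 : ∀ f g h : ℕ → ℝ, T3 s P Q R f g h =
          S3 (s 0 : ℤ) (-(s 1 : ℤ)) (4 * (s 2 : ℤ)) 0 P Q R f g h := fun f g h => rfl
      have hlm : ∀ z n : ℕ, lmz z n = Pool.Agent.H373R2.T7.lamz z n := fun z n => rfl
      refine ⟨?_, ?_, ?_⟩
      · apply hfin
        have e := herr X (by omega) hPar (h5 P (hNk P hPX))
          (by rw [hq1, hq2]; exact hG P (s 1 * s 2) _ hSz.p2 hPX hPle hd12 ⟨1, by ring⟩)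
          (hg' Q) (hh' R)
        rw [hq0, hq1, hq2, ← hLd] at e
        push_cast at e
        rw [hT3]
        exact e
      · apply hfin
        have e := herr X (by omega) hPar.swap (h5 Q (hNk Q hQX))
          (by rw [hq0, hq2]; exact hG Q (s 0 * s 2) _ hSz.q2 hQX hQle hd02 ⟨1, by ring⟩)
          (hg' P) (hh' R)
        rw [hq0, hq1, hq2, ← hLd] at e
        push_cast at e
        rw [hT3, S3_swap, mul_comm (s 0 : ℝ) (s 1)]
        exact e
      · apply hfin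
        have e := herr X (by omega) hPar.rot.rot (h5 R (hNk R hRX))
          (by rw [hq0, hq1]; exact hG R (s 0 * s 1) _ hSz.r2 hRX hRle hd01 ⟨4, by ring⟩)
          (hg' P) (hh' Q)
        rw [hq0, hq1, hq2, ← hLd] at e
        push_cast at e
        rw [hT3, S3_rot, S3_rot]
        have e6 : (s 0 : ℝ) * (s 1) * (4 * s 2) = 4 * (s 2) * (s 0) * (s 1) := by ring
        rw [e6]
        exact e

end Pool.Agent.L0h44.RZ
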